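import Mathlib
import Pool.Agent.H90.Shot.Defs
import Pool.Agent.H90.Shot.Prob

/-!
# Sequential union bound and sums over labelled 5-cycles
-/

set_option autoImplicit false

open Finset Classical

namespace Pool.Agent.H68.Shot

open Pool.Agent.H90.Shot

section seq

variable {ι α : Type*} [Fintype ι] [DecidableEq ι] [DecidableEq α]

/-- The sequential union bound: families of items are built one item at a time. -/
theorem seq_bound (F : ι → Finset α) (Valid : Finset ι → Prop)
    (hered : ∀ T i, i ∉ T → Valid (insert i T) → Valid T) {p w : ℝ} (h0 : 0 ≤ p)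
    (hw0 : 0 ≤ w)
    (hw : ∀ T, Valid T → ∑ i ∈ univ.filter (fun i => i ∉ T ∧ Valid (insert i T)),
      p ^ (F i \ T.biUnion F).card ≤ w) (K : ℕ) :
    ∑ T ∈ univ.filter (fun T : Finset ι => T.card = K ∧ Valid T), p ^ (T.biUnion F).card ≤
      w ^ K / K.factorial := by
  induction K with
  | zero =>
    have h1 : (univ.filter (fun T : Finset ι => T.card = 0 ∧ Valid T)) ⊆ {∅} := by
      intro T hT
      rw [mem_filter] at hT
      rw [mem_singleton]
      exact Finset.card_eq_zero.mp hT.2.1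
    refine (Finset.sum_le_sum_of_subset_of_nonneg h1
      (fun T _ _ => pow_nonneg h0 _)).trans ?_
    simp
  | succ K ih =>
    have hfac : (0 : ℝ) < ((K + 1).factorial : ℝ) := by exact_mod_cast Nat.factorial_pos _
    have hfac' : (0 : ℝ) < (K.factorial : ℝ) := by exact_mod_cast Nat.factorial_pos _
    have key : ((K : ℝ) + 1) *
        ∑ T ∈ univ.filter (fun T : Finset ι => T.card = K + 1 ∧ Valid T),
          p ^ (T.biUnion F).card ≤
        w * ∑ T ∈ univ.filter (fun T : Finset ι => T.card = K ∧ Valid T),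
          p ^ (T.biUnion F).card := by
      have e1 : ((K : ℝ) + 1) *
          ∑ T ∈ univ.filter (fun T : Finset ι => T.card = K + 1 ∧ Valid T),
            p ^ (T.biUnion F).card =
          ∑ T ∈ univ.filter (fun T : Finset ι => T.card = K + 1 ∧ Valid T),
            ∑ _i ∈ T, p ^ (T.biUnion F).card := by
        rw [Finset.mul_sum]
        refine Finset.sum_congr rfl (fun T hT => ?_)
        rw [mem_filter] at hT
        rw [Finset.sum_const, hT.2.1, nsmul_eq_mul]
        push_cast
        ring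
      have e2 : ∑ T ∈ univ.filter (fun T : Finset ι => T.card = K + 1 ∧ Valid T),
            ∑ _i ∈ T, p ^ (T.biUnion F).card ≤
          ∑ T ∈ univ.filter (fun T : Finset ι => T.card = K ∧ Valid T),
            ∑ i ∈ univ.filter (fun i => i ∉ T ∧ Valid (insert i T)),
              p ^ (T.biUnion F).card * p ^ (F i \ T.biUnion F).card := by
        rw [Finset.sum_sigma', Finset.sum_sigma']
        refine le_of_eq (Finset.sum_bij'
          (fun x _ => (⟨x.1.erase x.2, x.2⟩ : Σ _ : Finset ι, ι))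
          (fun x _ => (⟨insert x.2 x.1, x.2⟩ : Σ _ : Finset ι, ι)) ?_ ?_ ?_ ?_ ?_)
        · rintro ⟨T, i⟩ h
          simp only [mem_sigma, mem_filter, mem_univ, true_and] at h ⊢
          obtain ⟨⟨hc, hv⟩, hi⟩ := h
          have hins : insert i (T.erase i) = T := Finset.insert_erase hi
          refine ⟨⟨?_, ?_⟩, ?_, ?_⟩
          · rw [Finset.card_erase_of_mem hi, hc]
            rfl
          · exact hered (T.erase i) i (Finset.notMem_erase i T) (by rw [hins]; exact hv)
          · exact Finset.notMem_erase i T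
          · rw [hins]
            exact hv
        · rintro ⟨T, i⟩ h
          simp only [mem_sigma, mem_filter, mem_univ, true_and] at h ⊢
          obtain ⟨⟨hc, hv⟩, hi, hv'⟩ := h
          refine ⟨⟨?_, hv'⟩, Finset.mem_insert_self _ _⟩
          rw [Finset.card_insert_of_notMem hi, hc]
        · rintro ⟨T, i⟩ h
          simp only [mem_sigma, mem_filter, mem_univ, true_and] at h ⊢
          rw [Finset.insert_erase h.2]
        · rintro ⟨T, i⟩ h
          simp only [mem_sigma, mem_filter, mem_univ, true_and] at h ⊢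
          rw [Finset.erase_insert h.2.1]
        · rintro ⟨T, i⟩ h
          simp only [mem_sigma, mem_filter, mem_univ, true_and] at h ⊢
          rw [← pow_add]
          congr 1
          have hins : insert i (T.erase i) = T := Finset.insert_erase h.2
          have e3 : T.biUnion F = (T.erase i).biUnion F ∪ (F i \ (T.erase i).biUnion F) := by
            conv_lhs => rw [← hins]
            rw [Finset.biUnion_insert, Finset.union_comm]
            simp
          rw [e3, Finset.card_union_of_disjoint Finset.disjoint_sdiff]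
      rw [e1]
      refine e2.trans ?_
      rw [Finset.mul_sum]
      refine Finset.sum_le_sum (fun T hT => ?_)
      rw [mem_filter] at hT
      rw [← Finset.mul_sum, mul_comm]
      exact mul_le_mul_of_nonneg_right (hw T hT.2.2) (pow_nonneg h0 _)
    rw [le_div_iff₀ hfac, Nat.factorial_succ]
    push_cast
    have h5 := (le_div_iff₀ hfac').mp ih
    calc (∑ T ∈ univ.filter (fun T : Finset ι => T.card = K + 1 ∧ Valid T),
          p ^ (T.biUnion F).card) * (((K : ℝ) + 1) * (K.factorial : ℝ))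
        = (((K : ℝ) + 1) * ∑ T ∈ univ.filter (fun T : Finset ι => T.card = K + 1 ∧ Valid T),
          p ^ (T.biUnion F).card) * (K.factorial : ℝ) := by ring
      _ ≤ (w * ∑ T ∈ univ.filter (fun T : Finset ι => T.card = K ∧ Valid T),
          p ^ (T.biUnion F).card) * (K.factorial : ℝ) :=
          mul_le_mul_of_nonneg_right key hfac'.le
      _ = w * ((∑ T ∈ univ.filter (fun T : Finset ι => T.card = K ∧ Valid T),
          p ^ (T.biUnion F).card) * (K.factorial : ℝ)) := by ring
      _ ≤ w * w ^ K := mul_le_mul_of_nonneg_left h5 hw0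
      _ = w ^ (K + 1) := by ring

end seq

section count

/-- Number of small subsets. -/
theorem card_small_subsets {β : Type*} [Fintype β] (A : ℕ) :
    (univ.filter (fun E : Finset β => E.card ≤ A)).card ≤ (Fintype.card β + 1) ^ A := by
  have h1 : (univ.filter (fun E : Finset β => E.card ≤ A)) ⊆
      (univ : Finset (Fin A → Option β)).image (fun f => (univ.image f).eraseNone) := by
    intro E hE
    rw [mem_filter] at hE
    rw [mem_image]
    have hE2 := hE.2
    refine ⟨fun i => if h : i.val < E.card then some (E.equivFin.symm ⟨i.val, h⟩ : β) else none,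
      mem_univ _, ?_⟩
    ext x
    rw [Finset.mem_eraseNone, mem_image]
    constructor
    · rintro ⟨i, _, hi⟩
      by_cases h : i.val < E.card
      · rw [dif_pos h] at hi
        have := (E.equivFin.symm ⟨i.val, h⟩).2
        rw [Option.some.inj hi] at this
        exact this
      · rw [dif_neg h] at hi
        exact absurd hi (by simp)
    · intro hx
      have hlt : (E.equivFin ⟨x, hx⟩).val < E.card := (E.equivFin ⟨x, hx⟩).2
      refine ⟨⟨(E.equivFin ⟨x, hx⟩).val, lt_of_lt_of_le hlt hE2⟩, mem_univ _, ?_⟩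
      rw [dif_pos hlt]
      simp
  refine (Finset.card_le_card h1).trans (Finset.card_image_le.trans ?_)
  rw [Finset.card_univ, Fintype.card_fun, Fintype.card_option, Fintype.card_fin]

variable {V : Type*} [Fintype V]

theorem card_darts (E : Finset (Sym2 V)) :
    (univ.filter (fun d : V × V => s(d.1, d.2) ∈ E)).card ≤ 2 * E.card := by
  have h1 : ∀ d ∈ univ.filter (fun d : V × V => s(d.1, d.2) ∈ E), s(d.1, d.2) ∈ E := by
    intro d hd
    exact (mem_filter.mp hd).2
  refine Finset.card_le_mul_card_image_of_maps_to (f := fun d : V × V => s(d.1, d.2)) h1 2 ?_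
  intro e he
  induction e using Sym2.ind with
  | _ x y =>
    have h2 : (univ.filter (fun d : V × V => s(d.1, d.2) ∈ E)).filter
        (fun d => s(d.1, d.2) = s(x, y)) ⊆ {(x, y), (y, x)} := by
      rintro ⟨a, b⟩ hab
      have := (mem_filter.mp hab).2
      simp only [Sym2.eq_iff] at this
      rcases this with ⟨h, h'⟩ | ⟨h, h'⟩ <;> simp [h, h']
    exact (Finset.card_le_card h2).trans (Finset.card_le_two)

theorem card_nu (E : Finset (Sym2 V)) (hV : 1 ≤ Fintype.card V) :
    (univ.filter (fun ν : V → V → V => ∀ u v, s(u, v) ∉ E → ν u v = v)).card ≤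
      Fintype.card V ^ (2 * E.card) := by
  have h1 : (univ.filter (fun ν : V → V → V => ∀ u v, s(u, v) ∉ E → ν u v = v)) =
      Fintype.piFinset (fun u => Fintype.piFinset
        (fun v => if s(u, v) ∈ E then (univ : Finset V) else {v})) := by
    ext ν
    simp only [mem_filter, mem_univ, true_and, Fintype.mem_piFinset]
    constructor
    · intro h u v
      by_cases huv : s(u, v) ∈ E
      · rw [if_pos huv]; exact mem_univ _
      · rw [if_neg huv, mem_singleton]; exact h u v huv
    · intro h u v huv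
      have := h u v
      rw [if_neg huv, mem_singleton] at this
      exact this
  rw [h1, Fintype.card_piFinset]
  simp only [Fintype.card_piFinset]
  rw [← Finset.prod_product']
  have h2 : ∏ d ∈ (univ : Finset V) ×ˢ (univ : Finset V),
      (if s(d.1, d.2) ∈ E then (univ : Finset V) else {d.2}).card =
      ∏ d ∈ (univ : Finset V) ×ˢ (univ : Finset V),
      (if s(d.1, d.2) ∈ E then Fintype.card V else 1) := by
    refine Finset.prod_congr rfl (fun d _ => ?_)
    split_ifs <;> simp
  rw [h2, Finset.prod_ite, Finset.prod_const, Finset.prod_const_one, mul_one]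
  refine Nat.pow_le_pow_right hV ?_
  exact card_darts E

theorem card_dart_row (F : Finset (Sym2 V)) (v : V) :
    (univ.filter (fun u : V => s(u, v) ∈ F)).card ≤ dg F v := by
  unfold dg
  refine Finset.card_le_card_of_injOn (fun u => s(u, v)) ?_ ?_
  · intro u hu
    rw [Finset.mem_coe, mem_filter] at hu ⊢
    exact ⟨hu.2, by simp⟩
  · intro a _ b _ hab
    simp only [Sym2.eq_iff] at hab
    rcases hab with ⟨h, _⟩ | ⟨h, h'⟩
    · exact h
    · rw [h, h']

/-- weight of a pair: `1` if already revealed, `p` otherwise -/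
noncomputable def aw (p : ℝ) (F : Finset (Sym2 V)) (e : Sym2 V) : ℝ := if e ∈ F then 1 else p

omit [Fintype V] in
theorem aw_nonneg {p : ℝ} (h0 : 0 ≤ p) (F : Finset (Sym2 V)) (e : Sym2 V) : 0 ≤ aw p F e := by
  unfold aw
  split_ifs
  · norm_num
  · exact h0

theorem aw_row {p : ℝ} (h0 : 0 ≤ p) (F : Finset (Sym2 V)) (v : V) {D : ℝ}
    (hD : (dg F v : ℝ) ≤ D) : ∑ u, aw p F s(u, v) ≤ Fintype.card V * p + D := by
  unfold aw
  rw [Finset.sum_ite, Finset.sum_const, Finset.sum_const, nsmul_eq_mul, nsmul_eq_mul, mul_one]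
  have h1 : ((univ.filter (fun u : V => s(u, v) ∈ F)).card : ℝ) ≤ D :=
    le_trans (by exact_mod_cast card_dart_row F v) hD
  have h2 : ((univ.filter (fun u : V => ¬ s(u, v) ∈ F)).card : ℝ) ≤ Fintype.card V := by
    exact_mod_cast Finset.card_le_univ _
  nlinarith [mul_le_mul_of_nonneg_right h2 h0]

/-- indicator of a set of pairs -/
noncomputable def iw (F : Finset (Sym2 V)) (e : Sym2 V) : ℝ := if e ∈ F then 1 else 0

omit [Fintype V] in
theorem iw_nonneg (F : Finset (Sym2 V)) (e : Sym2 V) : 0 ≤ iw F e := by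
  unfold iw
  split_ifs <;> norm_num

theorem iw_row (F : Finset (Sym2 V)) (v : V) {D : ℝ}
    (hD : (dg F v : ℝ) ≤ D) : ∑ u, iw F s(u, v) ≤ D := by
  unfold iw
  rw [Finset.sum_boole]
  exact le_trans (by exact_mod_cast card_dart_row F v) hD

theorem iw_total (F : Finset (Sym2 V)) {A : ℝ} (hA : (F.card : ℝ) ≤ A) :
    ∑ u : V, ∑ v : V, iw F s(u, v) ≤ 2 * A := by
  unfold iw
  rw [← Finset.sum_product', Finset.sum_boole]
  have := card_darts F
  have h2 : (((univ ×ˢ univ : Finset (V × V)).filter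
      (fun d : V × V => s(d.1, d.2) ∈ F)).card : ℝ) ≤ 2 * F.card := by
    exact_mod_cast this
  linarith

end count

section cycles

variable {V : Type*} [Fintype V]

theorem sum_fin5 (f : (Fin 5 → V) → ℝ) :
    ∑ t, f t = ∑ v0, ∑ v1, ∑ v2, ∑ v3, ∑ v4, f ![v0, v1, v2, v3, v4] := by
  let e : (Fin 5 → V) ≃ V × V × V × V × V :=
    { toFun := fun t => (t 0, t 1, t 2, t 3, t 4)
      invFun := fun x => ![x.1, x.2.1, x.2.2.1, x.2.2.2.1, x.2.2.2.2]
      left_inv := by
        intro t
        funext i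
        fin_cases i <;> rfl
      right_inv := by
        rintro ⟨a, b, c, d, x⟩
        rfl }
  have h1 : ∑ t, f t = ∑ x : V × V × V × V × V, f (e.symm x) :=
    (Equiv.sum_comp e.symm f).symm
  rw [h1, Fintype.sum_prod_type]
  refine Finset.sum_congr rfl (fun a _ => ?_)
  rw [Fintype.sum_prod_type]
  refine Finset.sum_congr rfl (fun b _ => ?_)
  rw [Fintype.sum_prod_type]
  refine Finset.sum_congr rfl (fun c _ => ?_)
  rw [Fintype.sum_prod_type]
  rfl

/-- Elimination of a summation variable. -/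
theorem elim {S B : ℝ} {g h : V → ℝ} (hg : ∀ v, 0 ≤ g v) (hS : ∑ v, g v ≤ S) (hB : 0 ≤ B)
    (hh : ∀ v, h v ≤ B) : ∑ v, g v * h v ≤ S * B :=
  calc ∑ v, g v * h v ≤ ∑ v, g v * B :=
        Finset.sum_le_sum (fun v _ => mul_le_mul_of_nonneg_left (hh v) (hg v))
    _ = (∑ v, g v) * B := by rw [Finset.sum_mul]
    _ ≤ S * B := mul_le_mul_of_nonneg_right hS hB

theorem sum3_mid (f : V → V → V → ℝ) :
    ∑ a, ∑ b, ∑ c, f a b c = ∑ a, ∑ c, ∑ b, f a b c :=
  Finset.sum_congr rfl (fun _ _ => Finset.sum_comm)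

theorem sum3_rev (f : V → V → V → ℝ) :
    ∑ a, ∑ b, ∑ c, f a b c = ∑ c, ∑ b, ∑ a, f a b c := by
  rw [sum3_mid, Finset.sum_comm]
  exact Finset.sum_congr rfl (fun _ _ => Finset.sum_comm)

theorem cycle_sum_zero (b : Fin 5 → Sym2 V → ℝ) (hb : ∀ i e, 0 ≤ b i e) (k : Fin 5)
    (hk : k ≠ 0) {A c : ℝ} {S : Fin 5 → ℝ} (hS : ∀ i, 0 ≤ S i) (hc0 : 0 ≤ c)
    (hA : ∑ u, ∑ v, b 0 s(u, v) ≤ A) (hc : ∀ e, b k e ≤ c)
    (hr : ∀ i, i ≠ 0 → i ≠ k → ∀ v, ∑ u, b i s(u, v) ≤ S i) :
    ∑ t : Fin 5 → V, ∏ i, b i s(t i, t (i + 1)) ≤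
      A * (c * ∏ i ∈ (univ.erase 0).erase k, S i) := by
  have hr' : ∀ i, i ≠ 0 → i ≠ k → ∀ u, ∑ v, b i s(u, v) ≤ S i := by
    intro i h1 h2 u
    refine le_trans (le_of_eq ?_) (hr i h1 h2 u)
    exact Finset.sum_congr rfl (fun v _ => by rw [Sym2.eq_swap])
  have hP : 0 ≤ c * ∏ i ∈ (univ.erase 0).erase k, S i :=
    mul_nonneg hc0 (Finset.prod_nonneg (fun i _ => hS i))
  have key : ∀ v0 v1 : V, ∑ v2, ∑ v3, ∑ v4,
      b 1 s(v1, v2) * b 2 s(v2, v3) * b 3 s(v3, v4) * b 4 s(v4, v0) ≤
      c * ∏ i ∈ (univ.erase 0).erase k, S i := by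
    intro v0 v1
    fin_cases k
    · exact absurd rfl hk
    · -- k = 1
      have hset : ((univ : Finset (Fin 5)).erase 0).erase ((1 : Fin 5)) = {2, 3, 4} := by decide
      have e1 : ∑ v2, ∑ v3, ∑ v4,
          b 1 s(v1, v2) * b 2 s(v2, v3) * b 3 s(v3, v4) * b 4 s(v4, v0) =
          ∑ v4, b 4 s(v4, v0) * ∑ v3, b 3 s(v3, v4) * ∑ v2, b 2 s(v2, v3) * b 1 s(v1, v2) := by
        rw [sum3_rev]
        simp only [Finset.mul_sum]
        refine Finset.sum_congr rfl (fun _ _ => Finset.sum_congr rfl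
          (fun _ _ => Finset.sum_congr rfl (fun _ _ => by ring)))
      rw [e1]
      have h1 := elim (g := fun v4 => b 4 s(v4, v0)) (S := S 4)
        (h := fun v4 => ∑ v3, b 3 s(v3, v4) * ∑ v2, b 2 s(v2, v3) * b 1 s(v1, v2))
        (B := S 3 * (S 2 * c)) (fun _ => hb _ _) (hr 4 (by decide) (by decide) v0)
        (mul_nonneg (hS _) (mul_nonneg (hS _) hc0))
        (fun v4 => elim (fun _ => hb _ _) (hr 3 (by decide) (by decide) v4)
          (mul_nonneg (hS _) hc0) (fun v3 => elim (fun _ => hb _ _)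
            (hr 2 (by decide) (by decide) v3) hc0 (fun v2 => hc _)))
      refine h1.trans (le_of_eq ?_)
      change _ = c * ∏ i ∈ ((univ : Finset (Fin 5)).erase 0).erase ((1 : Fin 5)), S i
      rw [hset]
      simp
      ring
    · -- k = 2
      have hset : ((univ : Finset (Fin 5)).erase 0).erase ((2 : Fin 5)) = {1, 3, 4} := by decide
      have e1 : ∑ v2, ∑ v3, ∑ v4,
          b 1 s(v1, v2) * b 2 s(v2, v3) * b 3 s(v3, v4) * b 4 s(v4, v0) =
          ∑ v2, b 1 s(v1, v2) * ∑ v4, b 4 s(v4, v0) * ∑ v3, b 3 s(v3, v4) * b 2 s(v2, v3) := by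
        rw [sum3_mid]
        simp only [Finset.mul_sum]
        refine Finset.sum_congr rfl (fun _ _ => Finset.sum_congr rfl
          (fun _ _ => Finset.sum_congr rfl (fun _ _ => by ring)))
      rw [e1]
      have h1 := elim (g := fun v2 => b 1 s(v1, v2)) (S := S 1)
        (h := fun v2 => ∑ v4, b 4 s(v4, v0) * ∑ v3, b 3 s(v3, v4) * b 2 s(v2, v3))
        (B := S 4 * (S 3 * c)) (fun _ => hb _ _) (hr' 1 (by decide) (by decide) v1)
        (mul_nonneg (hS _) (mul_nonneg (hS _) hc0))
        (fun v2 => elim (fun _ => hb _ _) (hr 4 (by decide) (by decide) v0)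
          (mul_nonneg (hS _) hc0) (fun v4 => elim (fun _ => hb _ _)
            (hr 3 (by decide) (by decide) v4) hc0 (fun v3 => hc _)))
      refine h1.trans (le_of_eq ?_)
      change _ = c * ∏ i ∈ ((univ : Finset (Fin 5)).erase 0).erase ((2 : Fin 5)), S i
      rw [hset]
      simp
      ring
    · -- k = 3
      have hset : ((univ : Finset (Fin 5)).erase 0).erase ((3 : Fin 5)) = {1, 2, 4} := by decide
      have e1 : ∑ v2, ∑ v3, ∑ v4,
          b 1 s(v1, v2) * b 2 s(v2, v3) * b 3 s(v3, v4) * b 4 s(v4, v0) =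
          ∑ v2, b 1 s(v1, v2) * ∑ v3, b 2 s(v2, v3) * ∑ v4, b 4 s(v4, v0) * b 3 s(v3, v4) := by
        simp only [Finset.mul_sum]
        refine Finset.sum_congr rfl (fun _ _ => Finset.sum_congr rfl
          (fun _ _ => Finset.sum_congr rfl (fun _ _ => by ring)))
      rw [e1]
      have h1 := elim (g := fun v2 => b 1 s(v1, v2)) (S := S 1)
        (h := fun v2 => ∑ v3, b 2 s(v2, v3) * ∑ v4, b 4 s(v4, v0) * b 3 s(v3, v4))
        (B := S 2 * (S 4 * c)) (fun _ => hb _ _) (hr' 1 (by decide) (by decide) v1)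
        (mul_nonneg (hS _) (mul_nonneg (hS _) hc0))
        (fun v2 => elim (fun _ => hb _ _) (hr' 2 (by decide) (by decide) v2)
          (mul_nonneg (hS _) hc0) (fun v3 => elim (fun _ => hb _ _)
            (hr 4 (by decide) (by decide) v0) hc0 (fun v4 => hc _)))
      refine h1.trans (le_of_eq ?_)
      change _ = c * ∏ i ∈ ((univ : Finset (Fin 5)).erase 0).erase ((3 : Fin 5)), S i
      rw [hset]
      simp
      ring
    · -- k = 4
      have hset : ((univ : Finset (Fin 5)).erase 0).erase ((4 : Fin 5)) = {1, 2, 3} := by decide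
      have e1 : ∑ v2, ∑ v3, ∑ v4,
          b 1 s(v1, v2) * b 2 s(v2, v3) * b 3 s(v3, v4) * b 4 s(v4, v0) =
          ∑ v2, b 1 s(v1, v2) * ∑ v3, b 2 s(v2, v3) * ∑ v4, b 3 s(v3, v4) * b 4 s(v4, v0) := by
        simp only [Finset.mul_sum]
        refine Finset.sum_congr rfl (fun _ _ => Finset.sum_congr rfl
          (fun _ _ => Finset.sum_congr rfl (fun _ _ => by ring)))
      rw [e1]
      have h1 := elim (g := fun v2 => b 1 s(v1, v2)) (S := S 1)
        (h := fun v2 => ∑ v3, b 2 s(v2, v3) * ∑ v4, b 3 s(v3, v4) * b 4 s(v4, v0))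
        (B := S 2 * (S 3 * c)) (fun _ => hb _ _) (hr' 1 (by decide) (by decide) v1)
        (mul_nonneg (hS _) (mul_nonneg (hS _) hc0))
        (fun v2 => elim (fun _ => hb _ _) (hr' 2 (by decide) (by decide) v2)
          (mul_nonneg (hS _) hc0) (fun v3 => elim (fun _ => hb _ _)
            (hr' 3 (by decide) (by decide) v3) hc0 (fun v4 => hc _)))
      refine h1.trans (le_of_eq ?_)
      change _ = c * ∏ i ∈ ((univ : Finset (Fin 5)).erase 0).erase ((4 : Fin 5)), S i
      rw [hset]
      simp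
      ring
  rw [sum_fin5]
  have e2 : ∀ v0 v1 : V, ∑ v2, ∑ v3, ∑ v4,
      ∏ i : Fin 5, b i s((![v0, v1, v2, v3, v4] : Fin 5 → V) i,
        (![v0, v1, v2, v3, v4] : Fin 5 → V) (i + 1)) =
      b 0 s(v0, v1) * ∑ v2, ∑ v3, ∑ v4,
        b 1 s(v1, v2) * b 2 s(v2, v3) * b 3 s(v3, v4) * b 4 s(v4, v0) := by
    intro v0 v1
    simp only [Finset.mul_sum]
    refine Finset.sum_congr rfl (fun v2 _ => Finset.sum_congr rfl
      (fun v3 _ => Finset.sum_congr rfl (fun v4 _ => ?_)))
    rw [Fin.prod_univ_five]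
    change b 0 s(v0, v1) * b 1 s(v1, v2) * b 2 s(v2, v3) * b 3 s(v3, v4) * b 4 s(v4, v0) = _
    ring
  calc ∑ v0, ∑ v1, ∑ v2, ∑ v3, ∑ v4,
      ∏ i : Fin 5, b i s((![v0, v1, v2, v3, v4] : Fin 5 → V) i,
        (![v0, v1, v2, v3, v4] : Fin 5 → V) (i + 1))
      = ∑ v0, ∑ v1, b 0 s(v0, v1) * ∑ v2, ∑ v3, ∑ v4,
        b 1 s(v1, v2) * b 2 s(v2, v3) * b 3 s(v3, v4) * b 4 s(v4, v0) :=
        Finset.sum_congr rfl (fun v0 _ => Finset.sum_congr rfl (fun v1 _ => e2 v0 v1))
    _ ≤ ∑ v0, ∑ v1, b 0 s(v0, v1) * (c * ∏ i ∈ (univ.erase 0).erase k, S i) :=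
        Finset.sum_le_sum (fun v0 _ => Finset.sum_le_sum (fun v1 _ =>
          mul_le_mul_of_nonneg_left (key v0 v1) (hb _ _)))
    _ = (∑ v0, ∑ v1, b 0 s(v0, v1)) * (c * ∏ i ∈ (univ.erase 0).erase k, S i) := by
        simp only [Finset.sum_mul]
    _ ≤ _ := mul_le_mul_of_nonneg_right hA hP

/-- Sum over closed walks of length 5 with a bounded total for the edge `j`, a pointwise bound
for the edge `k` and row bounds for the other edges. -/
theorem cycle_sum (b : Fin 5 → Sym2 V → ℝ) (hb : ∀ i e, 0 ≤ b i e) (j k : Fin 5)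
    (hk : k ≠ j) {A c : ℝ} {S : Fin 5 → ℝ} (hS : ∀ i, 0 ≤ S i) (hc0 : 0 ≤ c)
    (hA : ∑ u, ∑ v, b j s(u, v) ≤ A) (hc : ∀ e, b k e ≤ c)
    (hr : ∀ i, i ≠ j → i ≠ k → ∀ v, ∑ u, b i s(u, v) ≤ S i) :
    ∑ t : Fin 5 → V, ∏ i, b i s(t i, t (i + 1)) ≤
      A * (c * ∏ i ∈ (univ.erase j).erase k, S i) := by
  have e1 : ∑ t : Fin 5 → V, ∏ i, b i s(t i, t (i + 1)) =
      ∑ t : Fin 5 → V, ∏ i, b (i + j) s(t i, t (i + 1)) := by
    refine Fintype.sum_equiv ((Equiv.addRight j).symm.arrowCongr (Equiv.refl V)) _ _ ?_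
    intro t
    rw [← Equiv.prod_comp (Equiv.addRight j)]
    refine Finset.prod_congr rfl (fun i _ => ?_)
    simp only [Equiv.coe_addRight, Equiv.arrowCongr_apply, Equiv.coe_refl, Function.comp,
      Equiv.symm_symm, id]
    rw [add_right_comm]
  rw [e1]
  have h1 := cycle_sum_zero (fun i => b (i + j)) (fun i e => hb _ _) (k - j)
    (sub_ne_zero.mpr hk) (A := A) (c := c) (S := fun i => S (i + j)) (fun i => hS _) hc0
    (by simpa using hA) (fun e => by simpa using hc e) (fun i h1 h2 v => by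
      refine hr (i + j) ?_ ?_ v
      · intro h
        exact h1 (by simpa using h)
      · intro h
        exact h2 (by rw [← h]; simp))
  refine h1.trans (le_of_eq ?_)
  congr 2
  refine Finset.prod_bij' (fun i _ => i + j) (fun i _ => i - j) ?_ ?_ ?_ ?_ ?_
  · intro i hi
    simp only [mem_erase, mem_univ, and_true] at hi ⊢
    refine ⟨?_, ?_⟩
    · intro h
      exact hi.1 (by rw [← h]; simp)
    · intro h
      exact hi.2 (by simpa using h)
  · intro i hi
    simp only [mem_erase, mem_univ, and_true] at hi ⊢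
    refine ⟨?_, ?_⟩
    · intro h
      exact hi.1 (sub_left_injective h)
    · exact sub_ne_zero.mpr hi.2
  · intro i _
    simp
  · intro i _
    simp
  · intro i _
    simp

end cycles

end Pool.Agent.H68.Shot
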