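import Mathlib
import Pool.Agent.H90.Shot.Defs
import Pool.Agent.H90.Shot.Prob
import Pool.Agent.H68.Shot.Seq

/-!
# Union bound for codes of type II
-/

set_option autoImplicit false

open Finset Classical

namespace Pool.Agent.H68.Shot

open Pool.Agent.H90.Shot

variable {V : Type*} [Fintype V]

omit [Fintype V] in
theorem ced_inj {t : Fin 5 → V} (ht : Function.Injective t) :
    Function.Injective (fun i : Fin 5 => s(t i, t (i + 1))) := by
  intro i j hij
  simp only [Sym2.eq_iff] at hij
  rcases hij with ⟨h, _⟩ | ⟨h, h'⟩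
  · exact ht h
  · have h1 := ht h
    have h2 := ht h'
    rw [h1] at h2
    exfalso
    revert h2
    clear h h' h1
    revert j
    decide

/-- weights of the image of an injective map -/
theorem pow_image_sdiff {β ι : Type*} [Fintype ι] [DecidableEq β] {g : ι → β} (hg : Function.Injective g)
    (F : Finset β) (p : ℝ) :
    p ^ ((univ.image g) \ F).card = ∏ k, (if g k ∈ F then 1 else p) := by
  rw [Finset.prod_ite, Finset.prod_const_one, one_mul, Finset.prod_const]
  congr 1
  have : (univ.image g) \ F = (univ.filter (fun k => g k ∉ F)).image g := by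
    ext x
    simp only [mem_sdiff, mem_image, mem_univ, true_and, mem_filter]
    constructor
    · rintro ⟨⟨k, rfl⟩, h⟩
      exact ⟨k, h, rfl⟩
    · rintro ⟨k, h, rfl⟩
      exact ⟨⟨k, rfl⟩, h⟩
  rw [this, Finset.card_image_of_injective _ hg]

omit [Fintype V] in
theorem dg_mono {F F' : Finset (Sym2 V)} (h : F ⊆ F') (v : V) : dg F v ≤ dg F' v :=
  Finset.card_le_card (Finset.filter_subset_filter _ h)

/-- Sum over the two inner vertices of the far path. -/
theorem far_sum {p : ℝ} (h0 : 0 ≤ p) (F : Finset (Sym2 V)) {D : ℝ} (hD0 : 0 ≤ D)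
    (hD : ∀ v, (dg F v : ℝ) ≤ D) (x c : V) :
    ∑ q, ∑ r, (if s(x, q) ∉ F ∨ s(q, r) ∉ F ∨ s(r, c) ∉ F then
      aw p F s(x, q) * aw p F s(q, r) * aw p F s(r, c) else 0) ≤
      3 * p * (Fintype.card V * p + D) ^ 2 := by
  have hR : ∀ v, ∑ u, aw p F s(u, v) ≤ Fintype.card V * p + D := fun v => aw_row h0 F v (hD v)
  have hR' : ∀ u, ∑ v, aw p F s(u, v) ≤ Fintype.card V * p + D := by
    intro u
    refine le_trans (le_of_eq ?_) (hR u)
    exact Finset.sum_congr rfl (fun v _ => by rw [Sym2.eq_swap])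
  have hn := fun e : Sym2 V => aw_nonneg h0 F e
  set R : ℝ := Fintype.card V * p + D with hRdef
  have hR0 : 0 ≤ R := by positivity
  have hpt : ∀ q r : V, (if s(x, q) ∉ F ∨ s(q, r) ∉ F ∨ s(r, c) ∉ F then
      aw p F s(x, q) * aw p F s(q, r) * aw p F s(r, c) else 0) ≤
      aw p F s(r, c) * (aw p F s(q, r) * p) + aw p F s(x, q) * (aw p F s(r, c) * p) +
      aw p F s(x, q) * (aw p F s(q, r) * p) := by
    intro q r
    have e1 := mul_nonneg (hn s(r, c)) (mul_nonneg (hn s(q, r)) h0)
    have e2 := mul_nonneg (hn s(x, q)) (mul_nonneg (hn s(r, c)) h0)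
    have e3 := mul_nonneg (hn s(x, q)) (mul_nonneg (hn s(q, r)) h0)
    by_cases h1 : s(x, q) ∉ F
    · rw [if_pos (Or.inl h1)]
      have h4 : aw p F s(x, q) = p := if_neg h1
      have h5 : aw p F s(x, q) * aw p F s(q, r) * aw p F s(r, c) =
          aw p F s(r, c) * (aw p F s(q, r) * p) := by
        conv_lhs => rw [h4]
        ring
      linarith
    · by_cases h2 : s(q, r) ∉ F
      · rw [if_pos (Or.inr (Or.inl h2))]
        have h4 : aw p F s(q, r) = p := if_neg h2
        have h5 : aw p F s(x, q) * aw p F s(q, r) * aw p F s(r, c) =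
            aw p F s(x, q) * (aw p F s(r, c) * p) := by
          conv_lhs => rw [h4]
          ring
        linarith
      · by_cases h3 : s(r, c) ∉ F
        · rw [if_pos (Or.inr (Or.inr h3))]
          have h4 : aw p F s(r, c) = p := if_neg h3
          have h5 : aw p F s(x, q) * aw p F s(q, r) * aw p F s(r, c) =
              aw p F s(x, q) * (aw p F s(q, r) * p) := by
            conv_lhs => rw [h4]
            ring
          linarith
        · rw [if_neg (by tauto)]
          linarith
  refine (Finset.sum_le_sum (fun q _ => Finset.sum_le_sum (fun r _ => hpt q r))).trans ?_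
  simp only [Finset.sum_add_distrib]
  have s1 : ∑ q, ∑ r, aw p F s(r, c) * (aw p F s(q, r) * p) ≤ R * (R * p) := by
    rw [Finset.sum_comm]
    simp only [← Finset.mul_sum]
    exact elim (fun v => hn _) (hR c) (mul_nonneg hR0 h0) (fun r => by
      rw [← Finset.sum_mul]
      exact mul_le_mul_of_nonneg_right (hR r) h0)
  have s2 : ∑ q, ∑ r, aw p F s(x, q) * (aw p F s(r, c) * p) ≤ R * (R * p) := by
    simp only [← Finset.mul_sum]
    exact elim (fun v => hn _) (hR' x) (mul_nonneg hR0 h0) (fun q => by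
      rw [← Finset.sum_mul]
      exact mul_le_mul_of_nonneg_right (hR c) h0)
  have s3 : ∑ q, ∑ r, aw p F s(x, q) * (aw p F s(q, r) * p) ≤ R * (R * p) := by
    simp only [← Finset.mul_sum]
    exact elim (fun v => hn _) (hR' x) (mul_nonneg hR0 h0) (fun q => by
      rw [← Finset.sum_mul]
      exact mul_le_mul_of_nonneg_right (hR' q) h0)
  nlinarith

/-- Sum over the cycles of a new item. -/
theorem cyc_part (E₁ F R : Finset (Sym2 V)) {p : ℝ} (h0 : 0 ≤ p) (h1 : p ≤ 1)
    {m M₀ D Δ₁ A₀ : ℕ} (hm1 : 1 ≤ m) (hm5 : m ≤ 5) (hE : E₁.card ≤ A₀)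
    (hΔ : ∀ v, dg E₁ v ≤ Δ₁) (hD : ∀ v, dg F v ≤ D)
    (hR : (univ.filter fun t : Fin 5 → V => Function.Injective t ∧ (ced t ∩ E₁).card = m ∧
      cyr E₁ t ⊆ R).card ≤ M₀) :
    ∑ t ∈ univ.filter (fun t : Fin 5 → V => Function.Injective t ∧ (ced t ∩ E₁).card = m ∧
      (cyr E₁ t ⊆ R ∨ ∃ e ∈ cyr E₁ t, e ∉ F)), ∏ i, aw p (E₁ ∪ F) s(t i, t (i + 1)) ≤
      M₀ + (if m = 5 then 0 else
        320 * A₀ * (Δ₁ : ℝ) ^ (m - 1) * (Fintype.card V * p + D) ^ (4 - m) * p) := by
  set Rr : ℝ := Fintype.card V * p + D with hRr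
  have hRr0 : 0 ≤ Rr := by positivity
  have hsub : univ.filter (fun t : Fin 5 → V => Function.Injective t ∧ (ced t ∩ E₁).card = m ∧
      (cyr E₁ t ⊆ R ∨ ∃ e ∈ cyr E₁ t, e ∉ F)) ⊆
      (univ.filter fun t : Fin 5 → V => Function.Injective t ∧ (ced t ∩ E₁).card = m ∧
        cyr E₁ t ⊆ R) ∪
      (univ.filter fun t : Fin 5 → V => Function.Injective t ∧ (ced t ∩ E₁).card = m ∧
        ∃ e ∈ cyr E₁ t, e ∉ F) := by
    intro t ht
    simp only [mem_union, mem_filter, mem_univ, true_and] at ht ⊢
    tauto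
  have hn : ∀ t : Fin 5 → V, 0 ≤ ∏ i, aw p (E₁ ∪ F) s(t i, t (i + 1)) :=
    fun t => Finset.prod_nonneg (fun i _ => aw_nonneg h0 _ _)
  refine (Finset.sum_le_sum_of_subset_of_nonneg hsub (fun t _ _ => hn t)).trans ?_
  have hun := Finset.sum_union_inter (s₁ := univ.filter fun t : Fin 5 → V =>
      Function.Injective t ∧ (ced t ∩ E₁).card = m ∧ cyr E₁ t ⊆ R)
    (s₂ := univ.filter fun t : Fin 5 → V => Function.Injective t ∧ (ced t ∩ E₁).card = m ∧
        ∃ e ∈ cyr E₁ t, e ∉ F) (f := fun t => ∏ i, aw p (E₁ ∪ F) s(t i, t (i + 1)))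
  have hint : 0 ≤ ∑ t ∈ ((univ.filter fun t : Fin 5 → V =>
      Function.Injective t ∧ (ced t ∩ E₁).card = m ∧ cyr E₁ t ⊆ R) ∩
      (univ.filter fun t : Fin 5 → V => Function.Injective t ∧ (ced t ∩ E₁).card = m ∧
        ∃ e ∈ cyr E₁ t, e ∉ F)), ∏ i, aw p (E₁ ∪ F) s(t i, t (i + 1)) :=
    Finset.sum_nonneg (fun t _ => hn t)
  have hA : ∑ t ∈ (univ.filter fun t : Fin 5 → V =>
      Function.Injective t ∧ (ced t ∩ E₁).card = m ∧ cyr E₁ t ⊆ R),
      ∏ i, aw p (E₁ ∪ F) s(t i, t (i + 1)) ≤ M₀ := by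
    have h2 : ∀ t ∈ (univ.filter fun t : Fin 5 → V =>
        Function.Injective t ∧ (ced t ∩ E₁).card = m ∧ cyr E₁ t ⊆ R),
        ∏ i, aw p (E₁ ∪ F) s(t i, t (i + 1)) ≤ 1 := by
      intro t _
      refine Finset.prod_le_one (fun i _ => aw_nonneg h0 _ _) (fun i _ => ?_)
      unfold aw
      split_ifs
      · exact le_rfl
      · exact h1
    refine (Finset.sum_le_sum h2).trans ?_
    rw [Finset.sum_const, nsmul_eq_mul, mul_one]
    exact_mod_cast hR
  have hB : ∑ t ∈ (univ.filter fun t : Fin 5 → V =>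
      Function.Injective t ∧ (ced t ∩ E₁).card = m ∧ ∃ e ∈ cyr E₁ t, e ∉ F),
      ∏ i, aw p (E₁ ∪ F) s(t i, t (i + 1)) ≤ (if m = 5 then 0 else
        320 * A₀ * (Δ₁ : ℝ) ^ (m - 1) * Rr ^ (4 - m) * p) := by
    -- the weight systems
    let bb : Finset (Fin 5) → Fin 5 → Fin 5 → Sym2 V → ℝ := fun P k i e =>
      if i ∈ P then iw E₁ e else if i = k then p else aw p F e
    have hbb : ∀ P k i e, 0 ≤ bb P k i e := by
      intro P k i e
      simp only [bb]
      split_ifs
      · exact iw_nonneg _ _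
      · exact h0
      · exact aw_nonneg h0 _ _
    have hpt : ∀ t ∈ (univ.filter fun t : Fin 5 → V =>
        Function.Injective t ∧ (ced t ∩ E₁).card = m ∧ ∃ e ∈ cyr E₁ t, e ∉ F),
        ∏ i, aw p (E₁ ∪ F) s(t i, t (i + 1)) ≤
        ∑ P ∈ (univ : Finset (Fin 5)).powersetCard m, ∑ k ∈ univ \ P,
          ∏ i, bb P k i s(t i, t (i + 1)) := by
      intro t ht
      rw [mem_filter] at ht
      obtain ⟨_, hinj, hcard, e, he, heF⟩ := ht
      set P : Finset (Fin 5) := univ.filter (fun i => s(t i, t (i + 1)) ∈ E₁) with hPdef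
      have hPim : P.image (fun i => s(t i, t (i + 1))) = ced t ∩ E₁ := by
        ext x
        simp only [hPdef, mem_image, mem_filter, mem_univ, true_and, mem_inter, ced]
        constructor
        · rintro ⟨i, h, rfl⟩
          exact ⟨⟨i, rfl⟩, h⟩
        · rintro ⟨⟨i, rfl⟩, h⟩
          exact ⟨i, h, rfl⟩
      have hPc : P.card = m := by
        rw [← hcard, ← hPim, Finset.card_image_of_injective _ (ced_inj hinj)]
      have he' : e ∈ ced t ∧ e ∉ E₁ := by
        unfold cyr at he
        exact Finset.mem_sdiff.mp he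
      obtain ⟨k, _, hk⟩ := Finset.mem_image.mp he'.1
      have hkP : k ∉ P := by
        rw [hPdef, mem_filter]
        rintro ⟨_, h⟩
        rw [hk] at h
        exact he'.2 h
      have heq : ∏ i, aw p (E₁ ∪ F) s(t i, t (i + 1)) =
          ∏ i, bb P k i s(t i, t (i + 1)) := by
        refine Finset.prod_congr rfl (fun i _ => ?_)
        simp only [bb]
        by_cases hi : i ∈ P
        · have hi' : s(t i, t (i + 1)) ∈ E₁ := (mem_filter.mp hi).2
          rw [if_pos hi]
          unfold aw iw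
          rw [if_pos (Finset.mem_union_left _ hi'), if_pos hi']
        · have hi' : s(t i, t (i + 1)) ∉ E₁ := fun h => hi (mem_filter.mpr ⟨mem_univ _, h⟩)
          rw [if_neg hi]
          by_cases hik : i = k
          · rw [if_pos hik, hik, hk]
            unfold aw
            rw [if_neg]
            rw [Finset.mem_union]
            tauto
          · rw [if_neg hik]
            unfold aw
            by_cases hF : s(t i, t (i + 1)) ∈ F
            · rw [if_pos hF, if_pos (Finset.mem_union_right _ hF)]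
            · rw [if_neg hF, if_neg]
              rw [Finset.mem_union]
              tauto
      rw [heq]
      have hkm : k ∈ univ \ P := Finset.mem_sdiff.mpr ⟨mem_univ _, hkP⟩
      have hPm : P ∈ (univ : Finset (Fin 5)).powersetCard m :=
        Finset.mem_powersetCard.mpr ⟨Finset.subset_univ _, hPc⟩
      have q1 := Finset.single_le_sum (f := fun k => ∏ i, bb P k i s(t i, t (i + 1)))
        (s := univ \ P) (fun k _ => Finset.prod_nonneg (fun i _ => hbb _ _ _ _)) hkm
      have q2 := Finset.single_le_sum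
        (f := fun P => ∑ k ∈ univ \ P, ∏ i, bb P k i s(t i, t (i + 1)))
        (s := (univ : Finset (Fin 5)).powersetCard m)
        (fun P _ => Finset.sum_nonneg (fun k _ => Finset.prod_nonneg
          (fun i _ => hbb _ _ _ _))) hPm
      exact q1.trans q2
    refine (Finset.sum_le_sum hpt).trans ?_
    have h3 : ∑ t ∈ (univ.filter fun t : Fin 5 → V =>
        Function.Injective t ∧ (ced t ∩ E₁).card = m ∧ ∃ e ∈ cyr E₁ t, e ∉ F),
        ∑ P ∈ (univ : Finset (Fin 5)).powersetCard m, ∑ k ∈ univ \ P,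
          ∏ i, bb P k i s(t i, t (i + 1)) ≤
        ∑ P ∈ (univ : Finset (Fin 5)).powersetCard m, ∑ k ∈ univ \ P,
          ∑ t : Fin 5 → V, ∏ i, bb P k i s(t i, t (i + 1)) := by
      rw [Finset.sum_comm]
      refine Finset.sum_le_sum (fun P _ => ?_)
      rw [Finset.sum_comm]
      refine Finset.sum_le_sum (fun k _ => ?_)
      exact Finset.sum_le_sum_of_subset_of_nonneg (Finset.subset_univ _)
        (fun t _ _ => Finset.prod_nonneg (fun i _ => hbb _ _ _ _))
    refine h3.trans ?_
    by_cases hm : m = 5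
    · rw [if_pos hm]
      refine le_of_eq (Finset.sum_eq_zero (fun P hP => ?_))
      have hPc := (Finset.mem_powersetCard.mp hP).2
      have : P = univ := by
        rw [← Finset.card_eq_iff_eq_univ, hPc, hm]
        rfl
      rw [this]
      simp
    · rw [if_neg hm]
      have h4 : ∀ P ∈ (univ : Finset (Fin 5)).powersetCard m, ∀ k ∈ univ \ P,
          ∑ t : Fin 5 → V, ∏ i, bb P k i s(t i, t (i + 1)) ≤
          2 * A₀ * (p * ((Δ₁ : ℝ) ^ (m - 1) * Rr ^ (4 - m))) := by
        intro P hP k hk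
        have hPc := (Finset.mem_powersetCard.mp hP).2
        have hkP : k ∉ P := (Finset.mem_sdiff.mp hk).2
        obtain ⟨j, hj⟩ : P.Nonempty := by
          rw [← Finset.card_pos, hPc]
          omega
        have hkj : k ≠ j := by
          rintro rfl
          exact hkP hj
        have h5 := cycle_sum (bb P k) (hbb P k) j k hkj (A := 2 * (A₀ : ℝ)) (c := p)
          (S := fun i => if i ∈ P then (Δ₁ : ℝ) else Rr)
          (fun i => by split_ifs <;> positivity) h0
          (by
            simp only [bb, if_pos hj]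
            exact iw_total E₁ (by exact_mod_cast hE))
          (fun e => by
            simp only [bb, if_neg hkP, if_true]
            exact le_rfl)
          (fun i _ hik v => by
            by_cases hi : i ∈ P
            · simp only [bb, if_pos hi]
              exact iw_row E₁ v (by exact_mod_cast hΔ v)
            · simp only [bb, if_neg hi, if_neg hik]
              exact aw_row h0 F v (by exact_mod_cast hD v))
        refine h5.trans (le_of_eq ?_)
        congr 2
        rw [Finset.prod_ite, Finset.prod_const, Finset.prod_const]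
        have c1 : (((univ : Finset (Fin 5)).erase j).erase k).filter (fun i => i ∈ P) =
            P.erase j := by
          ext i
          simp only [mem_filter, mem_erase, mem_univ, and_true]
          constructor
          · rintro ⟨⟨_, h2⟩, h3⟩
            exact ⟨h2, h3⟩
          · rintro ⟨h2, h3⟩
            refine ⟨⟨?_, h2⟩, h3⟩
            rintro rfl
            exact hkP h3
        have c2 : (((univ : Finset (Fin 5)).erase j).erase k).filter (fun i => i ∉ P) =
            (univ \ P).erase k := by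
          ext i
          simp only [mem_filter, mem_erase, mem_univ, and_true, mem_sdiff, true_and]
          constructor
          · rintro ⟨⟨h1, _⟩, h3⟩
            exact ⟨h1, h3⟩
          · rintro ⟨h1, h3⟩
            refine ⟨⟨h1, ?_⟩, h3⟩
            rintro rfl
            exact h3 hj
        rw [c1, c2, Finset.card_erase_of_mem hj, Finset.card_erase_of_mem hk,
          Finset.card_sdiff_of_subset (Finset.subset_univ _), hPc, Finset.card_univ,
          Fintype.card_fin]
        congr 2
        omega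
      have h6 : ∑ P ∈ (univ : Finset (Fin 5)).powersetCard m, ∑ k ∈ univ \ P,
          ∑ t : Fin 5 → V, ∏ i, bb P k i s(t i, t (i + 1)) ≤
          ∑ P ∈ (univ : Finset (Fin 5)).powersetCard m, ∑ k ∈ univ \ P,
          2 * A₀ * (p * ((Δ₁ : ℝ) ^ (m - 1) * Rr ^ (4 - m))) :=
        Finset.sum_le_sum (fun P hP => Finset.sum_le_sum (fun k hk => h4 P hP k hk))
      refine h6.trans ?_
      have h7 : ∀ P ∈ (univ : Finset (Fin 5)).powersetCard m, ∑ k ∈ univ \ P,
          2 * (A₀ : ℝ) * (p * ((Δ₁ : ℝ) ^ (m - 1) * Rr ^ (4 - m))) =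
          ((5 - m : ℕ) : ℝ) * (2 * A₀ * (p * ((Δ₁ : ℝ) ^ (m - 1) * Rr ^ (4 - m)))) := by
        intro P hP
        rw [Finset.sum_const, Finset.card_sdiff_of_subset (Finset.subset_univ _),
          (Finset.mem_powersetCard.mp hP).2, Finset.card_univ, Fintype.card_fin, nsmul_eq_mul]
      rw [Finset.sum_congr rfl h7, Finset.sum_const, Finset.card_powersetCard,
        Finset.card_univ, Fintype.card_fin, nsmul_eq_mul]
      have h8 : ((Nat.choose 5 m : ℕ) : ℝ) * ((5 - m : ℕ) : ℝ) ≤ 160 := by
        have : Nat.choose 5 m * (5 - m) ≤ 160 := by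
          interval_cases m <;> decide
        exact_mod_cast this
      have h9 : 0 ≤ 2 * (A₀ : ℝ) * (p * ((Δ₁ : ℝ) ^ (m - 1) * Rr ^ (4 - m))) := by positivity
      calc ((Nat.choose 5 m : ℕ) : ℝ) * (((5 - m : ℕ) : ℝ) *
            (2 * A₀ * (p * ((Δ₁ : ℝ) ^ (m - 1) * Rr ^ (4 - m)))))
          = (((Nat.choose 5 m : ℕ) : ℝ) * ((5 - m : ℕ) : ℝ)) *
            (2 * A₀ * (p * ((Δ₁ : ℝ) ^ (m - 1) * Rr ^ (4 - m)))) := by ring
        _ ≤ 160 * (2 * A₀ * (p * ((Δ₁ : ℝ) ^ (m - 1) * Rr ^ (4 - m)))) :=
            mul_le_mul_of_nonneg_right h8 h9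
        _ = _ := by ring
  linarith

end Pool.Agent.H68.Shot
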