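import Mathlib
import Pool.Agent.H90.Shot.Defs
import Pool.Agent.H90.Shot.Prob
import Pool.Agent.H68.Shot.Seq
import Pool.Agent.H68.Shot.CodeTwo

/-!
# Union bound for codes of type I
-/

set_option autoImplicit false

open Finset Classical

namespace Pool.Agent.H68.Shot

open Pool.Agent.H90.Shot

section step

variable {V : Type*} [Fintype V]

omit [Fintype V] in
theorem validI_hered {E₁ : Finset (Sym2 V)} {al : Sym2 V → Finset V} {D : ℕ}
    {T T' : Finset (Item1 V)} (hs : T ⊆ T') (h : ValidI E₁ al D T') :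
    ValidI E₁ al D T where
  inj := fun i hi => h.inj i (hs hi)
  newE := fun i hi => h.newE i (hs hi)
  nE := fun i hi => h.nE i (hs hi)
  px := fun i hi => h.px i (hs hi)
  py := fun i hi => h.py i (hs hi)
  ne := fun i hi => h.ne i (hs hi)
  deg := fun v => (dg_mono (Finset.biUnion_subset_biUnion_of_subset_left _ hs) v).trans (h.deg v)
  priv := fun i hi e he => ⟨(h.priv i (hs hi) e he).1,
    fun i' hi' hne => (h.priv i (hs hi) e he).2 i' (hs hi') hne⟩

omit [Fintype V] in
theorem dg_union_le (A B : Finset (Sym2 V)) (v : V) : dg (A ∪ B) v ≤ dg A v + dg B v := by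
  unfold dg
  rw [Finset.filter_union]
  exact Finset.card_union_le _ _

/-- Sum over the cycles of a new item. -/
theorem cyc_part1 (E₁ F : Finset (Sym2 V)) {p : ℝ} (h0 : 0 ≤ p)
    {D A₀ : ℕ} (hE : E₁.card ≤ A₀) (hΔ : ∀ v, dg E₁ v ≤ D) (hD : ∀ v, dg F v ≤ D) :
    ∑ t ∈ univ.filter (fun t : Fin 5 → V => Function.Injective t ∧ s(t 0, t 1) ∉ E₁ ∧
      (ced t ∩ E₁).Nonempty), ∏ i : Fin 5, (if i = 0 then 1 else aw p (E₁ ∪ F) s(t i, t (i + 1))) ≤
      8 * A₀ * (Fintype.card V * p + 2 * D) ^ 3 := by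
  set R : ℝ := Fintype.card V * p + 2 * D with hR
  have hR0 : 0 ≤ R := by positivity
  let bb : Fin 5 → Fin 5 → Sym2 V → ℝ := fun j i e =>
    if i = 0 then 1 else if i = j then iw E₁ e else aw p (E₁ ∪ F) e
  have hbb : ∀ j i e, 0 ≤ bb j i e := by
    intro j i e
    simp only [bb]
    split_ifs
    · norm_num
    · exact iw_nonneg _ _
    · exact aw_nonneg h0 _ _
  have hpt : ∀ t ∈ univ.filter (fun t : Fin 5 → V => Function.Injective t ∧
      s(t 0, t 1) ∉ E₁ ∧ (ced t ∩ E₁).Nonempty),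
      ∏ i : Fin 5, (if i = 0 then 1 else aw p (E₁ ∪ F) s(t i, t (i + 1))) ≤
      ∑ j ∈ (univ : Finset (Fin 5)).erase 0, ∏ i, bb j i s(t i, t (i + 1)) := by
    intro t ht
    rw [mem_filter] at ht
    obtain ⟨_, hinj, hnew, e, he⟩ := ht
    rw [Finset.mem_inter] at he
    obtain ⟨j, _, hj⟩ := Finset.mem_image.mp he.1
    have hj0 : j ≠ 0 := by
      rintro rfl
      apply hnew
      have : s(t 0, t 1) = e := hj
      rw [this]
      exact he.2
    have heq : ∏ i : Fin 5, (if i = 0 then 1 else aw p (E₁ ∪ F) s(t i, t (i + 1))) =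
        ∏ i, bb j i s(t i, t (i + 1)) := by
      refine Finset.prod_congr rfl (fun i _ => ?_)
      simp only [bb]
      by_cases hi0 : i = 0
      · rw [if_pos hi0, if_pos hi0]
      · rw [if_neg hi0, if_neg hi0]
        by_cases hij : i = j
        · rw [if_pos hij, hij, hj]
          unfold aw iw
          rw [if_pos (Finset.mem_union_left _ he.2), if_pos he.2]
        · rw [if_neg hij]
    rw [heq]
    exact Finset.single_le_sum (f := fun j => ∏ i, bb j i s(t i, t (i + 1)))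
      (fun j _ => Finset.prod_nonneg (fun i _ => hbb _ _ _))
      (Finset.mem_erase.mpr ⟨hj0, mem_univ _⟩)
  refine (Finset.sum_le_sum hpt).trans ?_
  have h3 : ∑ t ∈ univ.filter (fun t : Fin 5 → V => Function.Injective t ∧
      s(t 0, t 1) ∉ E₁ ∧ (ced t ∩ E₁).Nonempty),
      ∑ j ∈ (univ : Finset (Fin 5)).erase 0, ∏ i, bb j i s(t i, t (i + 1)) ≤
      ∑ j ∈ (univ : Finset (Fin 5)).erase 0, ∑ t : Fin 5 → V,
        ∏ i, bb j i s(t i, t (i + 1)) := by
    rw [Finset.sum_comm]
    refine Finset.sum_le_sum (fun j _ => ?_)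
    exact Finset.sum_le_sum_of_subset_of_nonneg (Finset.subset_univ _)
      (fun t _ _ => Finset.prod_nonneg (fun i _ => hbb _ _ _))
  refine h3.trans ?_
  have h4 : ∀ j ∈ (univ : Finset (Fin 5)).erase 0,
      ∑ t : Fin 5 → V, ∏ i, bb j i s(t i, t (i + 1)) ≤ 2 * A₀ * R ^ 3 := by
    intro j hj
    have hj0 : j ≠ 0 := (Finset.mem_erase.mp hj).1
    have h5 := cycle_sum (bb j) (hbb j) j 0 (Ne.symm hj0) (A := 2 * (A₀ : ℝ)) (c := 1)
      (S := fun _ => R) (fun i => hR0) (by norm_num)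
      (by
        simp only [bb, if_neg hj0, if_true]
        exact iw_total E₁ (by exact_mod_cast hE))
      (fun e => by
        simp only [bb, if_true]
        exact le_rfl)
      (fun i hij hi0 v => by
        simp only [bb, if_neg hij, if_neg hi0]
        have hd : (dg (E₁ ∪ F) v : ℝ) ≤ 2 * D := by
          have h6 := dg_union_le E₁ F v
          have h7 := hΔ v
          have h8 := hD v
          have h9 : dg (E₁ ∪ F) v ≤ 2 * D := by omega
          exact_mod_cast h9
        exact aw_row h0 (E₁ ∪ F) v hd)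
    refine h5.trans (le_of_eq ?_)
    rw [Finset.prod_const, Finset.card_erase_of_mem
      (Finset.mem_erase.mpr ⟨Ne.symm hj0, mem_univ _⟩), Finset.card_erase_of_mem (mem_univ _),
      Finset.card_univ, Fintype.card_fin]
    norm_num
  refine (Finset.sum_le_sum h4).trans ?_
  rw [Finset.sum_const, Finset.card_erase_of_mem (mem_univ _), Finset.card_univ,
    Fintype.card_fin, nsmul_eq_mul]
  apply le_of_eq
  push_cast
  ring

theorem stepI (E₁ : Finset (Sym2 V)) (al : Sym2 V → Finset V) {p : ℝ} (h0 : 0 ≤ p) (h1 : p ≤ 1)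
    {D A₀ KA : ℕ} (hE : E₁.card ≤ A₀)
    (hΔ : ∀ v, dg E₁ v ≤ D) (hal : ∀ e, (al e).card ≤ KA)
    (T : Finset (Item1 V)) (hT : ValidI E₁ al D T) :
    ∑ i ∈ univ.filter (fun i => i ∉ T ∧ ValidI E₁ al D (insert i T)),
      p ^ (iF1 E₁ i \ T.biUnion (iF1 E₁)).card ≤
    8 * A₀ * (Fintype.card V * p + 2 * D) ^ 3 * (4 * KA + 1) ^ 2 * p ^ 2 := by
  set F : Finset (Sym2 V) := T.biUnion (iF1 E₁) with hF
  have hFdeg : ∀ v, dg F v ≤ D := hT.deg
  set S : Finset (Fin 5 → V) := univ.filter (fun t : Fin 5 → V => Function.Injective t ∧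
    s(t 0, t 1) ∉ E₁ ∧ (ced t ∩ E₁).Nonempty) with hS
  let w1 : (Fin 5 → V) → ℝ := fun t =>
    ∏ i : Fin 5, (if i = 0 then 1 else aw p (E₁ ∪ F) s(t i, t (i + 1)))
  have hw1 : ∀ t, 0 ≤ w1 t := fun t => Finset.prod_nonneg (fun i _ => by
    split_ifs
    · norm_num
    · exact aw_nonneg h0 _ _)
  let X : (Fin 5 → V) → Finset V := fun t => insert (t 1) (cand E₁ al t)
  let Y : (Fin 5 → V) → Finset V := fun t => insert (t 0) (cand E₁ al t)
  have hpt : ∀ i ∈ univ.filter (fun i => i ∉ T ∧ ValidI E₁ al D (insert i T)),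
      p ^ (iF1 E₁ i \ F).card ≤ p ^ 2 * w1 i.1 ∧
      (i.1 ∈ S ∧ i.2.1 ∈ X i.1 ∧ i.2.2 ∈ Y i.1) := by
    intro i hi
    simp only [mem_filter, mem_univ, true_and] at hi
    obtain ⟨hiT, hv⟩ := hi
    have hmem : i ∈ insert i T := Finset.mem_insert_self _ _
    have hinj := hv.inj i hmem
    have hnew := hv.newE i hmem
    have hnE := hv.nE i hmem
    have hne := hv.ne i hmem
    have hpriv := hv.priv i hmem
    refine ⟨?_, ?_, hv.px i hmem, hv.py i hmem⟩
    · have hpF : ∀ e ∈ pe i, e ∉ F := by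
        intro e he
        rw [hF, Finset.mem_biUnion]
        rintro ⟨i', hi', h⟩
        exact (hpriv e he).2 i' (Finset.mem_insert_of_mem hi') (by rintro rfl; exact hiT hi') h
      have hpc : (pe i).card = 2 := by
        unfold pe
        exact Finset.card_pair hne
      have hsub : pe i ∪ (ced i.1 \ (E₁ ∪ F ∪ {s(i.1 0, i.1 1)})) ⊆ iF1 E₁ i \ F := by
        intro e he
        rw [Finset.mem_union] at he
        rw [Finset.mem_sdiff]
        rcases he with he | he
        · exact ⟨Finset.mem_union_right _ he, hpF e he⟩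
        · simp only [mem_sdiff, mem_union, mem_singleton, not_or] at he
          refine ⟨Finset.mem_union_left _ ?_, he.2.1.2⟩
          rw [Finset.mem_erase, Finset.mem_sdiff]
          exact ⟨he.2.2, he.1, he.2.1.1⟩
      have hdis : Disjoint (pe i) (ced i.1 \ (E₁ ∪ F ∪ {s(i.1 0, i.1 1)})) := by
        rw [Finset.disjoint_left]
        intro e he he'
        simp only [mem_sdiff, mem_union, mem_singleton, not_or] at he'
        apply (hpriv e he).1
        rw [Finset.mem_erase, Finset.mem_sdiff]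
        exact ⟨he'.2.2, he'.1, he'.2.1.1⟩
      have hcard := Finset.card_le_card hsub
      rw [Finset.card_union_of_disjoint hdis, hpc] at hcard
      refine (pow_le_pow_of_le_one h0 h1 hcard).trans ?_
      rw [pow_add]
      refine le_of_eq ?_
      congr 1
      have h5 := pow_image_sdiff (ced_inj hinj) (E₁ ∪ F ∪ {s(i.1 0, i.1 1)}) p
      unfold ced
      refine h5.trans ?_
      simp only [w1]
      refine Finset.prod_congr rfl (fun k _ => ?_)
      by_cases hk : k = 0
      · rw [if_pos hk, if_pos]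
        rw [hk]
        exact Finset.mem_union_right _ (Finset.mem_singleton_self _)
      · rw [if_neg hk]
        unfold aw
        have hne0 : s(i.1 k, i.1 (k + 1)) ≠ s(i.1 0, i.1 1) := by
          intro h
          exact hk (ced_inj hinj h)
        by_cases h6 : s(i.1 k, i.1 (k + 1)) ∈ E₁ ∪ F
        · rw [if_pos h6, if_pos (Finset.mem_union_left _ h6)]
        · rw [if_neg h6, if_neg]
          rw [Finset.mem_union, Finset.mem_singleton]
          tauto
    · rw [hS, mem_filter]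
      exact ⟨mem_univ _, hinj, hnew, hnE⟩
  have hsum : ∑ i ∈ univ.filter (fun i => i ∉ T ∧ ValidI E₁ al D (insert i T)),
      p ^ (iF1 E₁ i \ F).card ≤
      ∑ i : Item1 V, (if i.1 ∈ S ∧ i.2.1 ∈ X i.1 ∧ i.2.2 ∈ Y i.1 then p ^ 2 * w1 i.1 else 0) := by
    refine (Finset.sum_le_sum (fun i hi => ?_)).trans (Finset.sum_le_sum_of_subset_of_nonneg
      (f := fun i : Item1 V => (if i.1 ∈ S ∧ i.2.1 ∈ X i.1 ∧ i.2.2 ∈ Y i.1 then
        p ^ 2 * w1 i.1 else 0)) (Finset.subset_univ _) (fun i _ _ => ?_))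
    · obtain ⟨a, b⟩ := hpt i hi
      rw [if_pos b]
      exact a
    · split_ifs
      · exact mul_nonneg (pow_nonneg h0 _) (hw1 _)
      · exact le_rfl
  refine hsum.trans ?_
  have e1 : ∑ i : Item1 V, (if i.1 ∈ S ∧ i.2.1 ∈ X i.1 ∧ i.2.2 ∈ Y i.1 then
      p ^ 2 * w1 i.1 else 0) =
      ∑ t ∈ S, ((X t).card : ℝ) * ((Y t).card : ℝ) * (p ^ 2 * w1 t) := by
    rw [Fintype.sum_prod_type, ← Finset.sum_filter_add_sum_filter_not univ (fun t => t ∈ S)]
    have z : ∑ t ∈ univ.filter (fun t => ¬ t ∈ S), ∑ y : V × V,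
        (if t ∈ S ∧ y.1 ∈ X t ∧ y.2 ∈ Y t then p ^ 2 * w1 t else 0) = 0 := by
      refine Finset.sum_eq_zero (fun t ht => Finset.sum_eq_zero (fun y _ => ?_))
      rw [if_neg]
      exact fun h => (mem_filter.mp ht).2 h.1
    rw [z, add_zero, Finset.filter_mem_eq_inter, Finset.univ_inter]
    refine Finset.sum_congr rfl (fun t ht => ?_)
    rw [Fintype.sum_prod_type]
    have z2 : ∀ x : V, ∑ y : V, (if t ∈ S ∧ x ∈ X t ∧ y ∈ Y t then p ^ 2 * w1 t else 0) =
        if x ∈ X t then ((Y t).card : ℝ) * (p ^ 2 * w1 t) else 0 := by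
      intro x
      by_cases hx : x ∈ X t
      · simp only [ht, hx, true_and, if_true]
        rw [Finset.sum_ite_mem, Finset.univ_inter, Finset.sum_const, nsmul_eq_mul]
      · simp only [hx, false_and, and_false, if_false, Finset.sum_const_zero]
    simp only [z2]
    rw [Finset.sum_ite_mem, Finset.univ_inter, Finset.sum_const, nsmul_eq_mul]
    ring
  rw [e1]
  have hcand : ∀ t ∈ S, (cand E₁ al t).card ≤ 4 * KA := by
    intro t ht
    rw [hS, mem_filter] at ht
    unfold cand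
    refine Finset.card_biUnion_le.trans ?_
    refine (Finset.sum_le_sum (fun e _ => hal e)).trans ?_
    rw [Finset.sum_const, smul_eq_mul]
    refine Nat.mul_le_mul_right _ ?_
    have h5 : ced t ∩ E₁ ⊆ (ced t).erase s(t 0, t 1) := by
      intro e he
      rw [Finset.mem_inter] at he
      rw [Finset.mem_erase]
      refine ⟨?_, he.1⟩
      rintro rfl
      exact ht.2.2.1 he.2
    refine (Finset.card_le_card h5).trans ?_
    have h6 : s(t 0, t 1) ∈ ced t := Finset.mem_image.mpr ⟨0, mem_univ _, rfl⟩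
    rw [Finset.card_erase_of_mem h6]
    have h7 : (ced t).card ≤ 5 := by
      unfold ced
      exact Finset.card_image_le
    omega
  have hX : ∀ t ∈ S, ((X t).card : ℝ) ≤ 4 * KA + 1 := by
    intro t ht
    have : (X t).card ≤ 4 * KA + 1 := by
      refine (Finset.card_insert_le _ _).trans ?_
      have := hcand t ht
      omega
    exact_mod_cast this
  have hY : ∀ t ∈ S, ((Y t).card : ℝ) ≤ 4 * KA + 1 := by
    intro t ht
    have : (Y t).card ≤ 4 * KA + 1 := by
      refine (Finset.card_insert_le _ _).trans ?_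
      have := hcand t ht
      omega
    exact_mod_cast this
  have e2 : ∑ t ∈ S, ((X t).card : ℝ) * ((Y t).card : ℝ) * (p ^ 2 * w1 t) ≤
      ∑ t ∈ S, (((4 : ℝ) * KA + 1) ^ 2 * p ^ 2) * w1 t := by
    refine Finset.sum_le_sum (fun t ht => ?_)
    have a1 := hX t ht
    have a2 := hY t ht
    have a3 : ((X t).card : ℝ) * ((Y t).card : ℝ) ≤ (4 * KA + 1) * (4 * KA + 1) :=
      mul_le_mul a1 a2 (Nat.cast_nonneg _) (by positivity)
    have a4 := mul_le_mul_of_nonneg_right a3 (mul_nonneg (pow_nonneg h0 2) (hw1 t))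
    refine a4.trans (le_of_eq (by ring))
  refine e2.trans ?_
  rw [← Finset.mul_sum]
  have h9 := cyc_part1 E₁ F h0 hE hΔ hFdeg
  have h10 := mul_le_mul_of_nonneg_left h9
    (show (0 : ℝ) ≤ ((4 : ℝ) * KA + 1) ^ 2 * p ^ 2 by positivity)
  refine h10.trans (le_of_eq (by ring))

theorem card_al (E : Finset (Sym2 V)) (KA : ℕ) :
    (univ.filter (fun al : Sym2 V → Finset V => (∀ e, e ∉ E → al e = ∅) ∧
      ∀ e, (al e).card ≤ KA)).card ≤ ((Fintype.card V + 1) ^ KA) ^ E.card := by
  have h1 : (univ.filter (fun al : Sym2 V → Finset V => (∀ e, e ∉ E → al e = ∅) ∧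
      ∀ e, (al e).card ≤ KA)) ⊆
      Fintype.piFinset (fun e => if e ∈ E then
        (univ.filter (fun A : Finset V => A.card ≤ KA)) else {∅}) := by
    intro al h
    simp only [mem_filter, mem_univ, true_and, Fintype.mem_piFinset] at h ⊢
    intro e
    by_cases he : e ∈ E
    · rw [if_pos he, mem_filter]
      exact ⟨mem_univ _, h.2 e⟩
    · rw [if_neg he, mem_singleton]
      exact h.1 e he
  refine (Finset.card_le_card h1).trans ?_
  rw [Fintype.card_piFinset]
  have h2 : ∏ e : Sym2 V, (if e ∈ E then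
      (univ.filter (fun A : Finset V => A.card ≤ KA)) else {∅}).card ≤
      ∏ e : Sym2 V, (if e ∈ E then (Fintype.card V + 1) ^ KA else 1) := by
    refine Finset.prod_le_prod' (fun e _ => ?_)
    by_cases he : e ∈ E
    · rw [if_pos he, if_pos he]
      exact card_small_subsets KA
    · rw [if_neg he, if_neg he]
      simp
  refine h2.trans ?_
  rw [Finset.prod_ite, Finset.prod_const, Finset.prod_const_one, mul_one]
  rw [Finset.filter_mem_eq_inter, Finset.univ_inter]

/-- the data of a code of type I -/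
noncomputable def idxI (V : Type*) [Fintype V] (A₀ D KA : ℕ) :
    Finset (Finset (Sym2 V) × (Sym2 V → Finset V)) :=
  univ.filter (fun x => x.1.card ≤ A₀ ∧ (∀ v, dg x.1 v ≤ D) ∧
      (∀ e, e ∉ x.1 → x.2 e = ∅) ∧ (∀ e, (x.2 e).card ≤ KA))

/-- the valid families with given data -/
noncomputable def famI (x : Finset (Sym2 V) × (Sym2 V → Finset V)) (D K : ℕ) :
    Finset (Finset (Item1 V)) :=
  univ.filter (fun T => T.card = K ∧ ValidI x.1 x.2 D T)

theorem mem_idxI {A₀ D KA : ℕ} {x : Finset (Sym2 V) × (Sym2 V → Finset V)} :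
    x ∈ idxI V A₀ D KA ↔ x.1.card ≤ A₀ ∧ (∀ v, dg x.1 v ≤ D) ∧
      (∀ e, e ∉ x.1 → x.2 e = ∅) ∧ (∀ e, (x.2 e).card ≤ KA) := by
  unfold idxI
  rw [mem_filter]
  simp only [mem_univ, true_and]

theorem mem_famI {x : Finset (Sym2 V) × (Sym2 V → Finset V)} {D K : ℕ}
    {T : Finset (Item1 V)} :
    T ∈ famI x D K ↔ T.card = K ∧ ValidI x.1 x.2 D T := by
  unfold famI
  rw [mem_filter]
  simp only [mem_univ, true_and]

theorem sum_famI {p : ℝ} (h0 : 0 ≤ p) (h1 : p ≤ 1)
    {D A₀ KA K : ℕ} (x : Finset (Sym2 V) × (Sym2 V → Finset V))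
    (hx : x ∈ idxI V A₀ D KA) :
    ∑ T ∈ famI x D K, p ^ (tF1 x.1 T).card ≤
    (8 * A₀ * (Fintype.card V * p + 2 * D) ^ 3 * (4 * KA + 1) ^ 2 * p ^ 2) ^ K /
      K.factorial := by
  rw [mem_idxI] at hx
  unfold famI tF1
  refine seq_bound (iF1 x.1) (ValidI x.1 x.2 D) ?_ h0 ?_ ?_ K
  · intro T i _ h
    exact validI_hered (Finset.subset_insert _ _) h
  · positivity
  · intro T hT
    have := stepI x.1 x.2 h0 h1 hx.1 hx.2.1 hx.2.2.2 T hT
    convert this

theorem card_idxI (hV : 2 ≤ Fintype.card V) (A₀ D KA : ℕ) :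
    (idxI V A₀ D KA).card ≤
      Fintype.card V ^ (2 * A₀) * (Fintype.card V + 1) ^ (KA * A₀) := by
  have c1 : idxI V A₀ D KA ⊆ (univ.filter (fun E : Finset (Sym2 V) => E.card ≤ A₀)).biUnion
      (fun E => (univ.filter (fun al : Sym2 V → Finset V => (∀ e, e ∉ E → al e = ∅) ∧
      ∀ e, (al e).card ≤ KA)).image (fun al => (E, al))) := by
    rintro ⟨E, al⟩ hx
    rw [mem_idxI] at hx
    simp only [mem_biUnion, mem_filter, mem_univ, true_and, mem_image]
    exact ⟨E, hx.1, al, hx.2.2, rfl⟩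
  refine (Finset.card_le_card c1).trans (Finset.card_biUnion_le.trans ?_)
  have c2 : ∀ E ∈ univ.filter (fun E : Finset (Sym2 V) => E.card ≤ A₀),
      ((univ.filter (fun al : Sym2 V → Finset V => (∀ e, e ∉ E → al e = ∅) ∧
      ∀ e, (al e).card ≤ KA)).image (fun al => (E, al))).card ≤
        (Fintype.card V + 1) ^ (KA * A₀) := by
    intro E hE
    refine Finset.card_image_le.trans ((card_al E KA).trans ?_)
    rw [← pow_mul]
    refine Nat.pow_le_pow_right (by omega) ?_
    exact Nat.mul_le_mul_left _ (mem_filter.mp hE).2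
  refine (Finset.sum_le_sum c2).trans ?_
  rw [Finset.sum_const, smul_eq_mul]
  have c3 : (univ.filter (fun E : Finset (Sym2 V) => E.card ≤ A₀)).card ≤
      Fintype.card V ^ (2 * A₀) := by
    refine (card_small_subsets A₀).trans ?_
    rw [pow_mul]
    refine Nat.pow_le_pow_left ?_ _
    rw [Sym2.card, Nat.choose_two_right]
    have h3 : (Fintype.card V + 1) * (Fintype.card V + 1 - 1) / 2 * 2 ≤
        (Fintype.card V + 1) * (Fintype.card V + 1 - 1) := Nat.div_mul_le_self _ _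
    rw [Nat.add_sub_cancel] at h3 ⊢
    nlinarith
  exact Nat.mul_le_mul_right _ c3

end step

/-- The union bound for codes of type I. -/
theorem codeI_bound {n : ℕ} (hn : 2 ≤ n) {p : ℝ} (h0 : 0 ≤ p) (h1 : p ≤ 1)
    (D A₀ KA K : ℕ) :
    GP n p (fun G => CodeI G D A₀ KA K) ≤
      (n : ℝ) ^ (2 * A₀) * ((n : ℝ) + 1) ^ (KA * A₀) *
      ((8 * A₀ * (n * p + 2 * D) ^ 3 * (4 * KA + 1) ^ 2 * p ^ 2) ^ K / K.factorial) := by
  have step1 : GP n p (fun G => CodeI G D A₀ KA K) ≤
      GP n p (fun G => ∃ x ∈ idxI (Fin n) A₀ D KA, ∃ T ∈ famI x D K,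
        (tF1 x.1 T : Set (Sym2 (Fin n))) ⊆ G.edgeSet) := by
    refine GP_mono h0 h1 (fun G hG => ?_)
    obtain ⟨E₁, al, T, hA, hΔ, hal, hKA, hK, hv, hsub⟩ := hG
    exact ⟨(E₁, al), mem_idxI.mpr ⟨hA, hΔ, hal, hKA⟩, T, mem_famI.mpr ⟨hK, hv⟩, hsub⟩
  refine step1.trans ((GP_exists_le h0 h1 _ _).trans ?_)
  have step2 : ∀ x ∈ idxI (Fin n) A₀ D KA, GP n p (fun G => ∃ T ∈ famI x D K,
        (tF1 x.1 T : Set (Sym2 (Fin n))) ⊆ G.edgeSet) ≤
        ((8 * A₀ * (n * p + 2 * D) ^ 3 * (4 * KA + 1) ^ 2 * p ^ 2) ^ K / K.factorial) := by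
    intro x hx
    refine (GP_exists_le h0 h1 _ _).trans ?_
    refine (Finset.sum_le_sum (fun T _ => GP_subset_le h0 h1 (tF1 x.1 T))).trans ?_
    have := sum_famI (K := K) h0 h1 x hx
    rw [Fintype.card_fin] at this
    exact this
  refine (Finset.sum_le_sum step2).trans ?_
  rw [Finset.sum_const, nsmul_eq_mul]
  refine mul_le_mul_of_nonneg_right ?_ (by positivity)
  have hcount := card_idxI (V := Fin n) (by rw [Fintype.card_fin]; exact hn) A₀ D KA
  rw [Fintype.card_fin] at hcount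
  exact_mod_cast hcount

end Pool.Agent.H68.Shot
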