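import Mathlib
import Pool.Agent.H90.Shot.Defs
import Pool.Agent.H90.Shot.Prob
import Pool.Agent.H68.Shot.Seq
import Pool.Agent.H68.Shot.CodeTwo

/-!
# Union bound for codes of type II: the final bound
-/

set_option autoImplicit false

open Finset Classical

namespace Pool.Agent.H68.Shot

open Pool.Agent.H90.Shot

section step

variable {V : Type*} [Fintype V]

theorem validII_hered {E₁ : Finset (Sym2 V)} {ν : V → V → V} {m M₀ D : ℕ}
    {T T' : Finset (Item V)} (hs : T ⊆ T') (h : ValidII E₁ ν m M₀ D T') :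
    ValidII E₁ ν m M₀ D T where
  inj := fun i hi => h.inj i (hs hi)
  nE := fun i hi => h.nE i (hs hi)
  dist := fun i hi => h.dist i (hs hi)
  deg := fun v => (dg_mono (Finset.biUnion_subset_biUnion_of_subset_left _ hs) v).trans (h.deg v)
  priv := fun i hi => by
    obtain ⟨k, h1, h2⟩ := h.priv i (hs hi)
    exact ⟨k, h1, fun i' hi' hne => h2 i' (hs hi') hne⟩
  flag := fun i hi i' hi' k hk => h.flag i (hs hi) i' (hs hi') k hk
  cnt := by
    refine le_trans (Finset.card_le_card ?_) h.cnt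
    intro t ht
    simp only [mem_filter, mem_univ, true_and] at ht ⊢
    exact ⟨ht.1, ht.2.1, ht.2.2.trans (Finset.biUnion_subset_biUnion_of_subset_left _ hs)⟩

theorem stepII (E₁ : Finset (Sym2 V)) (ν : V → V → V) {p : ℝ} (h0 : 0 ≤ p) (h1 : p ≤ 1)
    {m M₀ D Δ₁ A₀ : ℕ} (hm1 : 1 ≤ m) (hm5 : m ≤ 5) (hE : E₁.card ≤ A₀)
    (hΔ : ∀ v, dg E₁ v ≤ Δ₁) (T : Finset (Item V)) (hT : ValidII E₁ ν m M₀ D T) :
    ∑ i ∈ univ.filter (fun i => i ∉ T ∧ ValidII E₁ ν m M₀ D (insert i T)),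
      p ^ (iF E₁ ν i \ T.biUnion (iF E₁ ν)).card ≤
    (M₀ + (if m = 5 then 0 else
        320 * A₀ * (Δ₁ : ℝ) ^ (m - 1) * (Fintype.card V * p + D) ^ (4 - m) * p)) *
      (24 * p * (Fintype.card V * p + D) ^ 2) := by
  set F : Finset (Sym2 V) := T.biUnion (iF E₁ ν) with hF
  have hFdeg : ∀ v, dg F v ≤ D := hT.deg
  set S : Finset (Fin 5 → V) := univ.filter (fun t : Fin 5 → V => Function.Injective t ∧
    (ced t ∩ E₁).card = m ∧ (cyr E₁ t ⊆ tR E₁ ν T ∨ ∃ e ∈ cyr E₁ t, e ∉ F)) with hS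
  set G : Finset (Fin 5 → V) := univ.filter (fun t : Fin 5 → V =>
    ∀ v, dg (F ∪ cyr E₁ t) v ≤ D) with hG
  let fx : (Fin 5 → V) → V := fun t => if s(t 0, t 1) ∈ E₁ then ν (t 0) (t 1) else t 1
  let fc : (Fin 5 → V) → V := fun t => if s(t 0, t 4) ∈ E₁ then ν (t 0) (t 4) else t 4
  let w1 : (Fin 5 → V) → ℝ := fun t => ∏ i, aw p (E₁ ∪ F) s(t i, t (i + 1))
  let w2 : (Fin 5 → V) → V → V → ℝ := fun t q r =>
    if s(fx t, q) ∉ F ∪ cyr E₁ t ∨ s(q, r) ∉ F ∪ cyr E₁ t ∨ s(r, fc t) ∉ F ∪ cyr E₁ t then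
      aw p (F ∪ cyr E₁ t) s(fx t, q) * aw p (F ∪ cyr E₁ t) s(q, r) *
        aw p (F ∪ cyr E₁ t) s(r, fc t) else 0
  have hw1 : ∀ t, 0 ≤ w1 t := fun t => Finset.prod_nonneg (fun i _ => aw_nonneg h0 _ _)
  have hw2 : ∀ t q r, 0 ≤ w2 t q r := by
    intro t q r
    simp only [w2]
    split_ifs
    · exact mul_nonneg (mul_nonneg (aw_nonneg h0 _ _) (aw_nonneg h0 _ _)) (aw_nonneg h0 _ _)
    · exact le_rfl
  -- pointwise bound
  have hpt : ∀ i ∈ univ.filter (fun i => i ∉ T ∧ ValidII E₁ ν m M₀ D (insert i T)),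
      p ^ (iF E₁ ν i \ F).card ≤ w1 i.1 * w2 i.1 i.2.1 i.2.2.1 ∧ i.1 ∈ S ∧ i.1 ∈ G := by
    intro i hi
    simp only [mem_filter, mem_univ, true_and] at hi
    obtain ⟨hiT, hv⟩ := hi
    have hmem : i ∈ insert i T := Finset.mem_insert_self _ _
    have hinj := hv.inj i hmem
    have hnE := hv.nE i hmem
    have hdist := hv.dist i hmem
    obtain ⟨k, hk1, hk2⟩ := hv.priv i hmem
    have hkF : fe E₁ ν i k ∉ F := by
      rw [hF, Finset.mem_biUnion]
      rintro ⟨i', hi', h⟩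
      exact hk2 i' (Finset.mem_insert_of_mem hi') (by rintro rfl; exact hiT hi') h
    have hkU : fe E₁ ν i k ∉ F ∪ cyr E₁ i.1 := by
      rw [Finset.mem_union]
      tauto
    refine ⟨?_, ?_, ?_⟩
    · -- the weight
      have hsub : (ced i.1 \ (E₁ ∪ F)) ∪ ((univ.image (fe E₁ ν i)) \ (F ∪ cyr E₁ i.1)) ⊆
          iF E₁ ν i \ F := by
        intro e he
        simp only [iF, cyr, mem_union, mem_sdiff] at he ⊢
        tauto
      have hdis : Disjoint (ced i.1 \ (E₁ ∪ F))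
          ((univ.image (fe E₁ ν i)) \ (F ∪ cyr E₁ i.1)) := by
        rw [Finset.disjoint_left]
        intro e he he'
        simp only [cyr, mem_union, mem_sdiff] at he he'
        tauto
      have hcard := Finset.card_le_card hsub
      rw [Finset.card_union_of_disjoint hdis] at hcard
      refine (pow_le_pow_of_le_one h0 h1 hcard).trans ?_
      rw [pow_add]
      refine le_of_eq ?_
      congr 1
      · have := pow_image_sdiff (ced_inj hinj) (E₁ ∪ F) p
        exact this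
      · rw [pow_image_sdiff hdist (F ∪ cyr E₁ i.1) p, Fin.prod_univ_three]
        have hor : s(fx i.1, i.2.1) ∉ F ∪ cyr E₁ i.1 ∨ s(i.2.1, i.2.2.1) ∉ F ∪ cyr E₁ i.1 ∨
            s(i.2.2.1, fc i.1) ∉ F ∪ cyr E₁ i.1 := by
          have hk3 : k = 0 ∨ k = 1 ∨ k = 2 := by
            clear hk1 hk2 hkF hkU
            revert k
            decide
          rcases hk3 with rfl | rfl | rfl
          · exact Or.inl hkU
          · exact Or.inr (Or.inl hkU)
          · exact Or.inr (Or.inr hkU)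
        simp only [w2]
        rw [if_pos hor]
        rfl
    · -- membership in S
      rw [hS, mem_filter]
      refine ⟨mem_univ _, hinj, hnE, ?_⟩
      by_cases hc : cyr E₁ i.1 ⊆ tR E₁ ν T
      · exact Or.inl hc
      · right
        rw [Finset.not_subset] at hc
        obtain ⟨e, he, heR⟩ := hc
        refine ⟨e, he, ?_⟩
        rw [hF, Finset.mem_biUnion]
        rintro ⟨i', hi', h⟩
        refine heR ?_
        unfold tR
        rw [Finset.mem_biUnion]
        refine ⟨i', hi', ?_⟩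
        unfold iF at h
        unfold iR
        rw [Finset.mem_union] at h ⊢
        rcases h with h | h
        · exact Or.inl h
        · right
          rw [Finset.mem_image] at h ⊢
          obtain ⟨l, _, hl⟩ := h
          refine ⟨l, mem_filter.mpr ⟨mem_univ _, ?_⟩, hl⟩
          exact hv.flag i' (Finset.mem_insert_of_mem hi') i hmem l (by rw [hl]; exact he)
    · -- degrees
      rw [hG, mem_filter]
      refine ⟨mem_univ _, fun v => ?_⟩
      refine (dg_mono ?_ v).trans (hv.deg v)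
      unfold tF
      rw [Finset.biUnion_insert]
      refine Finset.union_subset Finset.subset_union_right ?_
      refine Finset.Subset.trans ?_ Finset.subset_union_left
      unfold iF
      exact Finset.subset_union_left
  -- sum
  have hsum : ∑ i ∈ univ.filter (fun i => i ∉ T ∧ ValidII E₁ ν m M₀ D (insert i T)),
      p ^ (iF E₁ ν i \ F).card ≤
      ∑ i : Item V, (if i.1 ∈ S ∧ i.1 ∈ G then w1 i.1 * w2 i.1 i.2.1 i.2.2.1 else 0) := by
    refine (Finset.sum_le_sum (fun i hi => ?_)).trans (Finset.sum_le_sum_of_subset_of_nonneg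
      (f := fun i : Item V => (if i.1 ∈ S ∧ i.1 ∈ G then w1 i.1 * w2 i.1 i.2.1 i.2.2.1 else 0))
      (Finset.subset_univ _) (fun i _ _ => ?_))
    · obtain ⟨a, b, c⟩ := hpt i hi
      rw [if_pos ⟨b, c⟩]
      exact a
    · split_ifs
      · exact mul_nonneg (hw1 _) (hw2 _ _ _)
      · exact le_rfl
  refine hsum.trans ?_
  have e1 : ∑ i : Item V, (if i.1 ∈ S ∧ i.1 ∈ G then w1 i.1 * w2 i.1 i.2.1 i.2.2.1 else 0) =
      ∑ t : Fin 5 → V, (if t ∈ S ∧ t ∈ G then
        w1 t * (8 * ∑ q, ∑ r, w2 t q r) else 0) := by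
    rw [Fintype.sum_prod_type]
    refine Finset.sum_congr rfl (fun t _ => ?_)
    by_cases ht : t ∈ S ∧ t ∈ G
    · simp only [if_pos ht]
      rw [Fintype.sum_prod_type]
      simp only [Finset.mul_sum]
      refine Finset.sum_congr rfl (fun q _ => ?_)
      rw [Fintype.sum_prod_type]
      refine Finset.sum_congr rfl (fun r _ => ?_)
      change ∑ _y : Fin 3 → Bool, w1 t * w2 t q r = _
      rw [Finset.sum_const, Finset.card_univ, nsmul_eq_mul]
      have : Fintype.card (Fin 3 → Bool) = 8 := by simp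
      rw [this]
      push_cast
      ring
    · simp only [if_neg ht, Finset.sum_const_zero]
  rw [e1]
  have hfar : ∀ t ∈ G, ∑ q, ∑ r, w2 t q r ≤ 3 * p * (Fintype.card V * p + D) ^ 2 := by
    intro t ht
    rw [hG, mem_filter] at ht
    exact far_sum h0 (F ∪ cyr E₁ t) (Nat.cast_nonneg D)
      (fun v => by exact_mod_cast ht.2 v) (fx t) (fc t)
  have h24 : 0 ≤ 24 * p * (Fintype.card V * p + D) ^ 2 := by positivity
  have e2 : ∑ t : Fin 5 → V, (if t ∈ S ∧ t ∈ G then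
        w1 t * (8 * ∑ q, ∑ r, w2 t q r) else 0) ≤
      ∑ t ∈ S, w1 t * (24 * p * (Fintype.card V * p + D) ^ 2) := by
    rw [← Finset.sum_filter]
    refine (Finset.sum_le_sum (fun t ht => ?_)).trans (Finset.sum_le_sum_of_subset_of_nonneg
      (f := fun t => w1 t * (24 * p * (Fintype.card V * p + D) ^ 2)) (fun t ht => ?_)
      (fun t _ _ => mul_nonneg (hw1 t) h24))
    · have := hfar t (mem_filter.mp ht).2.2
      refine mul_le_mul_of_nonneg_left ?_ (hw1 t)
      linarith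
    · exact (mem_filter.mp ht).2.1
  refine e2.trans ?_
  rw [← Finset.sum_mul]
  refine mul_le_mul_of_nonneg_right ?_ h24
  exact cyc_part E₁ F (tR E₁ ν T) h0 h1 hm1 hm5 hE hΔ hFdeg hT.cnt

/-- the data of a code of type II -/
noncomputable def idxII (V : Type*) [Fintype V] (A₀ Δ₁ : ℕ) :
    Finset (Finset (Sym2 V) × (V → V → V)) :=
  univ.filter (fun x => x.1.card ≤ A₀ ∧ (∀ v, dg x.1 v ≤ Δ₁) ∧
      (∀ u v, s(u, v) ∉ x.1 → x.2 u v = v))

/-- the valid families with given data -/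
noncomputable def famII (x : Finset (Sym2 V) × (V → V → V)) (m M₀ D K : ℕ) :
    Finset (Finset (Item V)) :=
  univ.filter (fun T => T.card = K ∧ ValidII x.1 x.2 m M₀ D T)

theorem mem_idxII {A₀ Δ₁ : ℕ} {x : Finset (Sym2 V) × (V → V → V)} :
    x ∈ idxII V A₀ Δ₁ ↔ x.1.card ≤ A₀ ∧ (∀ v, dg x.1 v ≤ Δ₁) ∧
      (∀ u v, s(u, v) ∉ x.1 → x.2 u v = v) := by
  unfold idxII
  rw [mem_filter]
  simp only [mem_univ, true_and]

theorem mem_famII {x : Finset (Sym2 V) × (V → V → V)} {m M₀ D K : ℕ} {T : Finset (Item V)} :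
    T ∈ famII x m M₀ D K ↔ T.card = K ∧ ValidII x.1 x.2 m M₀ D T := by
  unfold famII
  rw [mem_filter]
  simp only [mem_univ, true_and]

theorem sum_famII {p : ℝ} (h0 : 0 ≤ p) (h1 : p ≤ 1)
    {m M₀ D Δ₁ A₀ K : ℕ} (hm1 : 1 ≤ m) (hm5 : m ≤ 5) (x : Finset (Sym2 V) × (V → V → V))
    (hx : x ∈ idxII V A₀ Δ₁) :
    ∑ T ∈ famII x m M₀ D K, p ^ (tF x.1 x.2 T).card ≤
    ((M₀ + (if m = 5 then 0 else
        320 * A₀ * (Δ₁ : ℝ) ^ (m - 1) * (Fintype.card V * p + D) ^ (4 - m) * p)) *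
      (24 * p * (Fintype.card V * p + D) ^ 2)) ^ K / K.factorial := by
  unfold idxII at hx
  rw [mem_filter] at hx
  unfold famII tF
  refine seq_bound (iF x.1 x.2) (ValidII x.1 x.2 m M₀ D) ?_ h0 ?_ ?_ K
  · intro T i _ h
    exact validII_hered (Finset.subset_insert _ _) h
  · split_ifs <;> positivity
  · intro T hT
    have := stepII x.1 x.2 h0 h1 hm1 hm5 hx.2.1 hx.2.2.1 T hT
    convert this

theorem card_idxII (hV : 2 ≤ Fintype.card V) (A₀ Δ₁ : ℕ) :
    (idxII V A₀ Δ₁).card ≤ Fintype.card V ^ (4 * A₀) := by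
  have c1 : idxII V A₀ Δ₁ ⊆ (univ.filter (fun E : Finset (Sym2 V) => E.card ≤ A₀)).biUnion
      (fun E => (univ.filter (fun ν : V → V → V =>
        ∀ u v, s(u, v) ∉ E → ν u v = v)).image (fun ν => (E, ν))) := by
    rintro ⟨E, ν⟩ hx
    unfold idxII at hx
    rw [mem_filter] at hx
    simp only [mem_biUnion, mem_filter, mem_univ, true_and, mem_image]
    exact ⟨E, hx.2.1, ν, hx.2.2.2, rfl⟩
  refine (Finset.card_le_card c1).trans (Finset.card_biUnion_le.trans ?_)
  have c2 : ∀ E ∈ univ.filter (fun E : Finset (Sym2 V) => E.card ≤ A₀),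
      ((univ.filter (fun ν : V → V → V =>
        ∀ u v, s(u, v) ∉ E → ν u v = v)).image (fun ν => (E, ν))).card ≤
        Fintype.card V ^ (2 * A₀) := by
    intro E hE
    refine Finset.card_image_le.trans ((card_nu E (by omega)).trans ?_)
    refine Nat.pow_le_pow_right (by omega) ?_
    have := (mem_filter.mp hE).2
    omega
  refine (Finset.sum_le_sum c2).trans ?_
  rw [Finset.sum_const, smul_eq_mul]
  have c3 : (univ.filter (fun E : Finset (Sym2 V) => E.card ≤ A₀)).card ≤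
      Fintype.card V ^ (2 * A₀) := by
    refine (card_small_subsets A₀).trans ?_
    rw [pow_mul]
    refine Nat.pow_le_pow_left ?_ _
    rw [Sym2.card, Nat.choose_two_right]
    have h3 : (Fintype.card V + 1) * (Fintype.card V + 1 - 1) / 2 * 2 ≤
        (Fintype.card V + 1) * (Fintype.card V + 1 - 1) := Nat.div_mul_le_self _ _
    rw [Nat.add_sub_cancel] at h3 ⊢
    nlinarith
  calc (univ.filter (fun E : Finset (Sym2 V) => E.card ≤ A₀)).card *
        Fintype.card V ^ (2 * A₀)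
      ≤ Fintype.card V ^ (2 * A₀) * Fintype.card V ^ (2 * A₀) := Nat.mul_le_mul_right _ c3
    _ = Fintype.card V ^ (4 * A₀) := by rw [← pow_add]; congr 1; omega

end step

/-- The union bound for codes of type II. -/
theorem codeII_bound {n : ℕ} (hn : 2 ≤ n) {p : ℝ} (h0 : 0 ≤ p) (h1 : p ≤ 1)
    (m M₀ D Δ₁ A₀ K : ℕ) (hm1 : 1 ≤ m) (hm5 : m ≤ 5) :
    GP n p (fun G => CodeII G m M₀ D Δ₁ A₀ K) ≤
      (n : ℝ) ^ (4 * A₀) * (((M₀ + (if m = 5 then 0 else
        320 * A₀ * (Δ₁ : ℝ) ^ (m - 1) * (n * p + D) ^ (4 - m) * p)) *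
        (24 * p * (n * p + D) ^ 2)) ^ K / K.factorial) := by
  have step1 : GP n p (fun G => CodeII G m M₀ D Δ₁ A₀ K) ≤
      GP n p (fun G => ∃ x ∈ idxII (Fin n) A₀ Δ₁, ∃ T ∈ famII x m M₀ D K,
        (tF x.1 x.2 T : Set (Sym2 (Fin n))) ⊆ G.edgeSet) := by
    refine GP_mono h0 h1 (fun G hG => ?_)
    obtain ⟨E₁, ν, T, hA, hΔ, hν, hK, hv, hsub⟩ := hG
    exact ⟨(E₁, ν), mem_idxII.mpr ⟨hA, hΔ, hν⟩, T, mem_famII.mpr ⟨hK, hv⟩, hsub⟩
  refine step1.trans ((GP_exists_le h0 h1 _ _).trans ?_)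
  have step2 : ∀ x ∈ idxII (Fin n) A₀ Δ₁, GP n p (fun G => ∃ T ∈ famII x m M₀ D K,
        (tF x.1 x.2 T : Set (Sym2 (Fin n))) ⊆ G.edgeSet) ≤
        (((M₀ + (if m = 5 then 0 else
        320 * A₀ * (Δ₁ : ℝ) ^ (m - 1) * (n * p + D) ^ (4 - m) * p)) *
        (24 * p * (n * p + D) ^ 2)) ^ K / K.factorial) := by
    intro x hx
    refine (GP_exists_le h0 h1 _ _).trans ?_
    refine (Finset.sum_le_sum (fun T _ => GP_subset_le h0 h1 (tF x.1 x.2 T))).trans ?_
    have := sum_famII (D := D) (M₀ := M₀) (K := K) h0 h1 hm1 hm5 x hx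
    rw [Fintype.card_fin] at this
    exact this
  refine (Finset.sum_le_sum step2).trans ?_
  rw [Finset.sum_const, nsmul_eq_mul]
  refine mul_le_mul_of_nonneg_right ?_ (by split_ifs <;> positivity)
  have hcount := card_idxII (V := Fin n) (by rw [Fintype.card_fin]; exact hn) A₀ Δ₁
  rw [Fintype.card_fin] at hcount
  exact_mod_cast hcount

end Pool.Agent.H68.Shot
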